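import Pool.Agent.Y639.Inq.Formula

set_option autoImplicit false

namespace Pool.Agent.Y639.Inq

open Pool.Agent.Results.MP_130315_lc.UncountableDomain
open Cardinal

universe a b u v

variable {σ : Sig.{a, b}} (M : Model.{a, b, u, v} σ)

/-- In a state supporting the premise of the formula of `UncountableDomain` but not its
conclusion, every set of natural numbers is coded by an individual. -/
theorem continuum_of_refutes (R : σ.Pred) (t : Set M.W) (g : ℕ → M.D)
    (hθ : Supports M t g (theta R)) (hχ : ¬ Supports M t g (chi R)) :
    ∃ c : Set ℕ → M.D, Function.Injective c := by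
  obtain ⟨h1, h2, h3, h4, h5, h6, h7⟩ := hθ
  set q : M.D := g 0 with hq
  -- the state is non-empty
  have hne : t.Nonempty := by
    by_contra hcon
    rw [Set.not_nonempty_iff_eq_empty] at hcon
    apply hχ
    rw [hcon]
    exact supports_empty M _ g
  -- identity is rigid on the state
  have e1 : ∀ x y : M.D, (∀ w ∈ t, M.sim w x y) ∨ (∀ w ∈ t, ¬ M.sim w x y) := by
    intro x y
    have := (supports_whether M (ee 1 2) t _).1 (h1 x y)
    rcases this with h | h
    · left
      intro w hw
      have := (supports_ee M t _ 1 2).1 h w hw
      simpa [Function.update] using this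
    · right
      intro w hw hs
      apply h w hw
      rw [supports_ee]
      intro w' hw'
      rw [Set.mem_singleton_iff] at hw'
      subst hw'
      simpa [Function.update] using hs
  -- R is rigid on the state, off the diagonal
  have e2 : ∀ x y : M.D, (∀ w ∈ t, ¬ M.sim w x y) →
      (∀ w ∈ t, RR M R w x y) ∨ (∀ w ∈ t, ¬ RR M R w x y) := by
    intro x y hxy
    have hpre : Supports M t (Function.update (Function.update g 1 x) 2 y) (neg (ee 1 2)) := by
      rw [supports_neg]
      intro w hw hs
      rw [supports_ee] at hs
      apply hxy w hw
      simpa [Function.update] using hs w rfl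
    have := (supports_whether M (rr R 1 2) t _).1 (h2 x y t (Set.Subset.refl _) hpre)
    rcases this with h | h
    · left
      intro w hw
      have := (supports_rr M R t _ 1 2).1 h w hw
      simpa [Function.update] using this
    · right
      intro w hw hs
      apply h w hw
      rw [supports_rr]
      intro w' hw'
      rw [Set.mem_singleton_iff] at hw'
      subst hw'
      simpa [Function.update] using hs
  obtain ⟨w0, hw0⟩ := hne
  -- being a name is rigid on the state
  have nmr : ∀ (x : M.D) (w w' : M.W), w ∈ t → w' ∈ t → NM M R w q x → NM M R w' q x := by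
    intro x w w' hw hw' h
    have hs : ∀ w ∈ t, ¬ M.sim w x q := by
      rcases e1 x q with h' | h'
      · exact absurd (h' w hw) h.1
      · exact h'
    refine ⟨hs w' hw', ?_⟩
    rcases e2 x q hs with h' | h'
    · exact h' w' hw'
    · exact absurd h.2 (h' w hw)
  -- there is a name
  have e3 : ∃ x : M.D, NM M R w0 q x := by
    obtain ⟨d, hd⟩ := (supports_cex M 1 (nm R 1) t g).1 h3 w0 hw0
    have := (supports_nm M R {w0} _ 1).1 hd w0 rfl
    exact ⟨d, by simpa [Function.update] using this⟩
  -- there is no last name
  have e4 : ∀ x : M.D, NM M R w0 q x → ∃ y : M.D, LT' M R w0 q x y := by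
    intro x hx
    have hpre : Supports M t (Function.update g 1 x) (nm R 1) := by
      rw [supports_nm]
      intro w hw
      have := nmr x w0 w hw0 hw hx
      simpa [Function.update] using this
    have h := h4 x t (Set.Subset.refl _) hpre
    obtain ⟨y, hy⟩ := (supports_cex M 2 (lt R 1 2) t _).1 h w0 hw0
    have := (supports_lt M R {w0} _ 1 2).1 hy w0 rfl
    exact ⟨y, by simpa [Function.update] using this⟩
  -- transitivity
  have e5 : ∀ x y z : M.D, LT' M R w0 q x y → LT' M R w0 q y z → LT' M R w0 q x z := by
    intro x y z hxy hyz
    have h := h5 x y z {w0} (Set.singleton_subset_iff.mpr hw0)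
    have hpre : Supports M {w0}
        (Function.update (Function.update (Function.update g 1 x) 2 y) 3 z)
        (.and (lt R 1 2) (lt R 2 3)) := by
      refine ⟨?_, ?_⟩
      · rw [supports_lt]
        intro w hw
        rw [Set.mem_singleton_iff] at hw
        subst hw
        simpa [Function.update] using hxy
      · rw [supports_lt]
        intro w hw
        rw [Set.mem_singleton_iff] at hw
        subst hw
        simpa [Function.update] using hyz
    have := (supports_lt M R {w0} _ 1 3).1 (h hpre) w0 rfl
    simpa [Function.update] using this
  -- at most one name is marked at a world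
  have e6 : ∀ w ∈ t, ∀ x y : M.D, NM M R w q x → NM M R w q y → RR M R w x x → RR M R w y y →
      M.sim w x y := by
    intro w hw x y hx hy hxx hyy
    have h := h6 x y {w} (Set.singleton_subset_iff.mpr hw)
    have hpre : Supports M {w} (Function.update (Function.update g 1 x) 2 y)
        (.and (.and (nm R 1) (nm R 2)) (.and (rr R 1 1) (rr R 2 2))) := by
      refine ⟨⟨?_, ?_⟩, ?_, ?_⟩
      · rw [supports_nm]
        intro w' hw'
        rw [Set.mem_singleton_iff] at hw'
        subst hw'
        simpa [Function.update] using hx
      · rw [supports_nm]
        intro w' hw'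
        rw [Set.mem_singleton_iff] at hw'
        subst hw'
        simpa [Function.update] using hy
      · rw [supports_rr]
        intro w' hw'
        rw [Set.mem_singleton_iff] at hw'
        subst hw'
        simpa [Function.update] using hxx
      · rw [supports_rr]
        intro w' hw'
        rw [Set.mem_singleton_iff] at hw'
        subst hw'
        simpa [Function.update] using hyy
    have := (supports_ee M {w} _ 1 2).1 (h hpre) w rfl
    simpa [Function.update] using this
  -- every name is marked at worlds of both kinds
  have e8 : ∀ x : M.D, NM M R w0 q x →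
      (∃ w ∈ t, RR M R w x x ∧ RR M R w q q) ∧ (∃ w ∈ t, RR M R w x x ∧ ¬ RR M R w q q) := by
    intro x hx
    have hpre : Supports M t (Function.update g 1 x) (nm R 1) := by
      rw [supports_nm]
      intro w hw
      have := nmr x w0 w hw0 hw hx
      simpa [Function.update] using this
    constructor
    · by_contra hcon
      push Not at hcon
      apply hχ
      right
      refine ⟨x, hpre, ?_⟩
      intro u hu hR
      rw [supports_neg]
      intro w hw hQ
      rw [supports_rr] at hR hQ
      refine hcon w (hu hw) ?_ ?_
      · simpa [Function.update] using hR w hw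
      · simpa [Function.update] using hQ w rfl
    · by_contra hcon
      push Not at hcon
      apply hχ
      left
      refine ⟨x, hpre, ?_⟩
      intro u hu hR
      rw [supports_rr]
      intro w hw
      rw [supports_rr] at hR
      have := hcon w (hu hw) (by simpa [Function.update] using hR w hw)
      simpa [Function.update] using this
  -- an infinite increasing sequence of names
  obtain ⟨x0, hx0⟩ := e3
  choose! nxt hnxt using e4
  let a : ℕ → M.D := fun n => Nat.rec x0 (fun _ x => nxt x) n
  have ha : ∀ n, NM M R w0 q (a n) := by
    intro n
    induction n with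
    | zero => exact hx0
    | succ n ih => exact (hnxt (a n) ih).2.1
  have hasucc : ∀ n, LT' M R w0 q (a n) (a (n + 1)) := fun n => hnxt (a n) (ha n)
  have halt : ∀ i k, LT' M R w0 q (a i) (a (i + k + 1)) := by
    intro i k
    induction k with
    | zero => exact hasucc i
    | succ k ih => exact e5 _ _ _ ih (hasucc (i + k + 1))
  have hane : ∀ i j, i < j → ¬ M.sim w0 (a i) (a j) := by
    intro i j hij
    obtain ⟨k, rfl⟩ := Nat.exists_eq_add_of_lt hij
    exact (halt i k).2.2.1
  have hainj : ∀ w ∈ t, ∀ i j, M.sim w (a i) (a j) → i = j := by
    intro w hw i j h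
    have h0 : M.sim w0 (a i) (a j) := by
      rcases e1 (a i) (a j) with h' | h'
      · exact h' w0 hw0
      · exact absurd h (h' w hw)
    rcases lt_trichotomy i j with hlt | heq | hgt
    · exact absurd h0 (hane i j hlt)
    · exact heq
    · exact absurd ((M.sim_equiv w0).symm h0) (hane j i hgt)
  -- every set of natural numbers is coded
  have code : ∀ A : Set ℕ, ∃ c : M.D, ∀ i : ℕ, (∀ w ∈ t, (RR M R w c (a i) ↔ i ∈ A)) := by
    intro A
    let u : Set M.W := {w | w ∈ t ∧ ∃ i, RR M R w (a i) (a i) ∧ (RR M R w q q ↔ i ∈ A)}
    have hut : u ⊆ t := fun w hw => hw.1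
    have hα : Supports M u g (alpha R) := by
      intro d v hv hnm v' hv' hR
      rw [supports_nm] at hnm
      rw [supports_rr] at hR
      have hnm' : ∀ w ∈ v, NM M R w q d := by
        intro w hw
        simpa [Function.update] using hnm w hw
      have hR' : ∀ w ∈ v', RR M R w d d := by
        intro w hw
        simpa [Function.update] using hR w hw
      rw [supports_whether]
      by_cases hex : ∃ w ∈ v', RR M R w q q
      · left
        rw [supports_rr]
        intro w' hw'
        obtain ⟨w, hw, hQ⟩ := hex
        obtain ⟨hwt, i, hi, hiA⟩ := hv (hv' hw)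
        obtain ⟨hwt', i', hi', hiA'⟩ := hv (hv' hw')
        have s1 : M.sim w d (a i) :=
          e6 w hwt d (a i) (hnm' w (hv' hw)) (nmr _ w0 w hw0 hwt (ha i)) (hR' w hw) hi
        have s2 : M.sim w' d (a i') :=
          e6 w' hwt' d (a i') (hnm' w' (hv' hw')) (nmr _ w0 w' hw0 hwt' (ha i')) (hR' w' hw') hi'
        have s1' : M.sim w' d (a i) := by
          rcases e1 d (a i) with h' | h'
          · exact h' w' hwt'
          · exact absurd s1 (h' w hwt)
        have hii : i = i' :=
          hainj w' hwt' i i' ((M.sim_equiv w').trans ((M.sim_equiv w').symm s1') s2)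
        subst hii
        have : RR M R w' q q := hiA'.2 (hiA.1 hQ)
        simpa [Function.update] using this
      · right
        intro w hw hQ
        rw [supports_rr] at hQ
        apply hex
        exact ⟨w, hw, by simpa [Function.update] using hQ w rfl⟩
    obtain ⟨c, hc1, hc2⟩ := h7 u hut hα
    refine ⟨c, ?_⟩
    intro i
    -- a world in u marking a i
    have hwi : ∃ w ∈ u, RR M R w (a i) (a i) := by
      obtain ⟨⟨w1, hw1, hr1, hq1⟩, ⟨w2, hw2, hr2, hq2⟩⟩ := e8 (a i) (ha i)
      by_cases hiA : i ∈ A
      · exact ⟨w1, ⟨hw1, i, hr1, by simp [hiA, hq1]⟩, hr1⟩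
      · exact ⟨w2, ⟨hw2, i, hr2, by simp [hiA, hq2]⟩, hr2⟩
    obtain ⟨w, hwu, hwR⟩ := hwi
    have hwt : w ∈ t := hut hwu
    -- c is not a name, so it differs from a i
    have hcn : ¬ M.sim w c (a i) := by
      intro hs
      rw [supports_neg] at hc1
      apply hc1 w hwu
      rw [supports_nm]
      intro w' hw'
      rw [Set.mem_singleton_iff] at hw'
      subst hw'
      have hnai : NM M R w' q (a i) := nmr _ w0 w' hw0 hwt (ha i)
      have : NM M R w' q c := by
        refine ⟨fun hcq => hnai.1 ((M.sim_equiv w').trans ((M.sim_equiv w').symm hs) hcq), ?_⟩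
        have := (M.sim_pred w' R (fun k => if k.val = 0 then c else q)
          (fun k => if k.val = 0 then a i else q) (by
            intro k
            split_ifs
            · exact hs
            · exact (M.sim_equiv w').refl q)).2 hnai.2
        exact this
      simpa [Function.update] using this
    have hcn' : ∀ w ∈ t, ¬ M.sim w c (a i) := by
      rcases e1 c (a i) with h' | h'
      · exact absurd (h' w hwt) hcn
      · exact h'
    -- the value at w
    have hval : RR M R w c (a i) ↔ i ∈ A := by
      have hpre : Supports M u (Function.update (Function.update g 1 c) 2 (a i)) (nm R 2) := by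
        rw [supports_nm]
        intro w' hw'
        have := nmr _ w0 w' hw0 (hut hw') (ha i)
        simpa [Function.update] using this
      have h := hc2 (a i) u (Set.Subset.refl _) hpre {w} (Set.singleton_subset_iff.mpr hwu) (by
        rw [supports_rr]
        intro w' hw'
        rw [Set.mem_singleton_iff] at hw'
        subst hw'
        simpa [Function.update] using hwR)
      obtain ⟨k1, k2⟩ := h
      have hQi : RR M R w q q ↔ i ∈ A := by
        obtain ⟨_, i', hi', hiA'⟩ := hwu
        have : i = i' := hainj w hwt i i'
          (e6 w hwt (a i) (a i') (nmr _ w0 w hw0 hwt (ha i)) (nmr _ w0 w hw0 hwt (ha i')) hwR hi')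
        subst this
        exact hiA'
      rw [← hQi]
      constructor
      · intro hRc
        have := k1 {w} (Set.Subset.refl _) (by
          rw [supports_rr]
          intro w' hw'
          rw [Set.mem_singleton_iff] at hw'
          subst hw'
          simpa [Function.update] using hRc)
        rw [supports_rr] at this
        simpa [Function.update] using this w rfl
      · intro hRq
        have := k2 {w} (Set.Subset.refl _) (by
          rw [supports_rr]
          intro w' hw'
          rw [Set.mem_singleton_iff] at hw'
          subst hw'
          simpa [Function.update] using hRq)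
        rw [supports_rr] at this
        simpa [Function.update] using this w rfl
    intro w' hw'
    rw [← hval]
    rcases e2 c (a i) hcn' with h' | h'
    · exact ⟨fun _ => h' w hwt, fun _ => h' w' hw'⟩
    · exact ⟨fun h => absurd h (h' w' hw'), fun h => absurd h (h' w hwt)⟩
  choose c hc using code
  refine ⟨c, ?_⟩
  intro A B hAB
  ext i
  rw [← hc A i w0 hw0, ← hc B i w0 hw0, hAB]

theorem continuum_le (R : σ.Pred) (t : Set M.W) (g : ℕ → M.D)
    (hθ : Supports M t g (theta R)) (hχ : ¬ Supports M t g (chi R)) : 𝔠 ≤ #M.D := by
  obtain ⟨c, hc⟩ := continuum_of_refutes M R t g hθ hχ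
  have := Cardinal.lift_mk_le_lift_mk_of_injective hc
  rw [Cardinal.mk_set] at this
  simpa using this

theorem mk_Ind : #Ind = 𝔠 := by
  apply le_antisymm
  · have e : Ind ≃ Option (ℕ ⊕ Set ℕ) :=
      { toFun := fun x => match x with
          | .par => none
          | .name n => some (Sum.inl n)
          | .code A => some (Sum.inr A)
        invFun := fun x => match x with
          | none => .par
          | some (Sum.inl n) => .name n
          | some (Sum.inr A) => .code A
        left_inv := fun x => by cases x <;> rfl
        right_inv := fun x => by rcases x with _ | (n | A) <;> rfl }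
    rw [Cardinal.mk_congr e]
    simp only [mk_option, mk_sum, mk_eq_aleph0, lift_aleph0, mk_set, lift_id,
      two_power_aleph0, aleph0_add_continuum]
    rw [Cardinal.add_one_eq Cardinal.aleph0_le_continuum]
  · have h : #(Set ℕ) ≤ #Ind :=
      Cardinal.mk_le_of_injective (f := Ind.code) (fun A B h => by injection h)
    simpa using h

end Pool.Agent.Y639.Inq
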