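import Pool.Agent.Y639.Inq.SemV

set_option autoImplicit false

namespace Pool.Agent.Y639.Inq

open Pool.Agent.Results.MP_130315_lc.UncountableDomain
open Cardinal

universe a b u v w

variable {σ : Sig.{a, b}} {M : Model.{a, b, u, v} σ} {R : σ.Pred} {t : Set M.W} {q p : M.D}
  {w0 : M.W}

/-- the individuals up to identity -/
def sd (M : Model.{a, b, u, v} σ) (w0 : M.W) : Setoid M.D := ⟨M.sim w0, M.sim_equiv w0⟩

/-- the set of the classes of the elements of `y` -/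
def ex (M : Model.{a, b, u, v} σ) (R : σ.Pred) (q : M.D) (w0 : M.W) (y : M.D) :
    Set (Quotient (sd M w0)) :=
  {s | ∃ z, LT' M R w0 q z y ∧ Quotient.mk (sd M w0) z = s}

/-- the number of elements of `y` -/
noncomputable def en (M : Model.{a, b, u, v} σ) (R : σ.Pred) (q : M.D) (w0 : M.W) (y : M.D) :
    Cardinal.{v} := #(ex M R q w0 y)

theorem le_en {ι : Type v} {y : M.D} (f : ι → M.D) (hf : ∀ i, LT' M R w0 q (f i) y)
    (hinj : ∀ i j, M.sim w0 (f i) (f j) → i = j) : #ι ≤ en M R q w0 y := by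
  refine Cardinal.mk_le_of_injective
    (f := fun i => (⟨Quotient.mk (sd M w0) (f i), f i, hf i, rfl⟩ : ex M R q w0 y)) ?_
  intro i j h
  have h1 : Quotient.mk (sd M w0) (f i) = Quotient.mk (sd M w0) (f j) := congrArg Subtype.val h
  exact hinj i j (Quotient.exact h1)

theorem reps (M : Model.{a, b, u, v} σ) (R : σ.Pred) (q : M.D) (w0 : M.W) (y : M.D) :
    ∃ f : ex M R q w0 y → M.D, (∀ s, LT' M R w0 q (f s) y) ∧
      ∀ s s', M.sim w0 (f s) (f s') → s = s' := by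
  have h : ∀ s : ex M R q w0 y, ∃ z, LT' M R w0 q z y ∧ Quotient.mk (sd M w0) z = s.1 :=
    fun s => s.2
  choose f hf1 hf2 using h
  refine ⟨f, hf1, fun s s' hss => Subtype.ext ?_⟩
  rw [← hf2 s, ← hf2 s']
  exact Quotient.sound hss

namespace HypV

theorem nmr (H : HypV M R t q p w0) (x : M.D) (w w' : M.W) (hw : w ∈ t) (hw' : w' ∈ t)
    (h : NM M R w q x) : NM M R w' q x := by
  have hs : ∀ w ∈ t, ¬ M.sim w x q := by
    rcases H.e1 x q with h' | h'
    · exact absurd (h' w hw) h.1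
    · exact h'
  refine ⟨hs w' hw', ?_⟩
  rcases H.e2 x q hs hs with h' | h'
  · exact h' w' hw'
  · exact absurd h.2 (h' w hw)

theorem simr (H : HypV M R t q p w0) {x y : M.D} {w w' : M.W} (hw : w ∈ t) (hw' : w' ∈ t)
    (h : M.sim w x y) : M.sim w' x y := by
  rcases H.e1 x y with h' | h'
  · exact h' w' hw'
  · exact absurd h (h' w hw)

theorem ltr (H : HypV M R t q p w0) {x y : M.D} {w w' : M.W} (hw : w ∈ t) (hw' : w' ∈ t)
    (h : LT' M R w q x y) : LT' M R w' q x y := by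
  have hs : ∀ w ∈ t, ¬ M.sim w x y := by
    rcases H.e1 x y with h' | h'
    · exact absurd (h' w hw) h.2.2.1
    · exact h'
  have hq : ∀ w ∈ t, ¬ M.sim w x q := fun w'' hw'' => (H.nmr x w w'' hw hw'' h.1).1
  refine ⟨H.nmr x w w' hw hw' h.1, H.nmr y w w' hw hw' h.2.1, hs w' hw', ?_⟩
  rcases H.e2 x y hs hq with h' | h'
  · exact h' w' hw'
  · exact absurd h.2.2.2 (h' w hw)

theorem base (H : HypV M R t q p w0) : ∃ f : ℕ → M.D, (∀ i, LT' M R w0 q (f i) p) ∧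
    ∀ i j, M.sim w0 (f i) (f j) → i = j := by
  obtain ⟨x0, hx0⟩ := H.e3
  have e4 := H.e4
  choose! nxt hn1 hn2 using e4
  let s : ℕ → M.D := fun n => Nat.rec x0 (fun _ x => nxt x) n
  have hs : ∀ n, LT' M R w0 q (s n) p := by
    intro n
    induction n with
    | zero => exact hx0
    | succ n ih => exact hn1 (s n) ih
  have hsucc : ∀ n, LT' M R w0 q (s n) (s (n + 1)) := fun n => hn2 (s n) (hs n)
  have halt : ∀ i k, LT' M R w0 q (s i) (s (i + k + 1)) := by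
    intro i k
    induction k with
    | zero => exact hsucc i
    | succ k ih =>
      have := H.e5 (s i) (s (i + k + 1)) (s (i + k + 1 + 1)) (hs i) (hs (i + k + 1))
        (hs (i + k + 1 + 1)) ih (hsucc (i + k + 1))
      exact this
  have hane : ∀ i j, i < j → ¬ M.sim w0 (s i) (s j) := by
    intro i j hij
    obtain ⟨k, rfl⟩ := Nat.exists_eq_add_of_lt hij
    exact (halt i k).2.2.1
  refine ⟨s, hs, ?_⟩
  intro i j h
  rcases lt_trichotomy i j with hlt | heq | hgt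
  · exact absurd h (hane i j hlt)
  · exact heq
  · exact absurd ((M.sim_equiv w0).symm h) (hane j i hgt)

theorem step (H : HypV M R t q p w0) {ι : Type w} [Nonempty ι] {x : M.D} (f : ι → M.D)
    (hf : ∀ i, LT' M R w0 q (f i) x) (hinj : ∀ i j, M.sim w0 (f i) (f j) → i = j) :
    ∃ (y : M.D) (f' : Set ι → M.D), (∀ i, LT' M R w0 q (f' i) y) ∧
      ∀ i j, M.sim w0 (f' i) (f' j) → i = j := by
  obtain ⟨i0⟩ := ‹Nonempty ι›
  have hx : ∀ w ∈ t, NM M R w q x := fun w hw => H.nmr x w0 w H.mem hw (hf i0).2.1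
  have hfn : ∀ i, ∀ w ∈ t, NM M R w q (f i) := fun i w hw => H.nmr _ w0 w H.mem hw (hf i).1
  have hfx : ∀ i, ∀ w ∈ t, LT' M R w q (f i) x := fun i w hw => H.ltr H.mem hw (hf i)
  obtain ⟨y, hy, hcode⟩ := H.e7 x hx
  have code : ∀ A : Set ι, ∃ c : M.D, LT' M R w0 q c y ∧
      ∀ i : ι, (LT' M R w0 q (f i) c ↔ i ∈ A) := by
    intro A
    let u : Set M.W := {w | w ∈ t ∧ ∃ i, RR M R w (f i) (f i) ∧ (RR M R w q q ↔ i ∈ A)}
    have hut : u ⊆ t := fun w hw => hw.1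
    have hwi : ∀ i, ∃ w ∈ u, RR M R w (f i) (f i) ∧ (RR M R w q q ↔ i ∈ A) := by
      intro i
      obtain ⟨⟨w1, hw1, hr1, _, hq1⟩, ⟨w2, hw2, hr2, _, hq2⟩⟩ := H.e8 (f i) (f i) (hfn i) (hfn i)
      by_cases hiA : i ∈ A
      · exact ⟨w1, ⟨hw1, i, hr1, by simp [hiA, hq1]⟩, hr1, by simp [hiA, hq1]⟩
      · exact ⟨w2, ⟨hw2, i, hr2, by simp [hiA, hq2]⟩, hr2, by simp [hiA, hq2]⟩
    obtain ⟨c, hc1, hc2⟩ := hcode u hut (by
      intro z v hv hz hzz
      by_cases hex : ∃ w ∈ v, RR M R w q q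
      · left
        intro w' hw'
        obtain ⟨w, hw, hQ⟩ := hex
        obtain ⟨hwt, i, hi, hiA⟩ := hv hw
        obtain ⟨hwt', i', hi', hiA'⟩ := hv hw'
        have s1 : M.sim w z (f i) := H.e6 w hwt z (f i) (hz w hw).1 (hfn i w hwt) (hzz w hw) hi
        have s2 : M.sim w' z (f i') :=
          H.e6 w' hwt' z (f i') (hz w' hw').1 (hfn i' w' hwt') (hzz w' hw') hi'
        have s1' : M.sim w0 z (f i) := H.simr hwt H.mem s1
        have s2' : M.sim w0 z (f i') := H.simr hwt' H.mem s2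
        have hii : i = i' :=
          hinj i i' ((M.sim_equiv w0).trans ((M.sim_equiv w0).symm s1') s2')
        subst hii
        exact hiA'.2 (hiA.1 hQ)
      · right
        intro w hw hQ
        exact hex ⟨w, hw, hQ⟩)
    refine ⟨c, ?_, ?_⟩
    · obtain ⟨w, hwu, _⟩ := hwi i0
      exact H.ltr (hut hwu) H.mem (hc1 w hwu)
    · intro i
      obtain ⟨w, hwu, hr, hq⟩ := hwi i
      have := hc2 (f i) w hwu (hfx i w (hut hwu)) hr (fun w' hw' => hfx i w' (hut hw'))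
      rw [← hq, ← this]
      exact ⟨fun h => H.ltr H.mem (hut hwu) h, fun h => H.ltr (hut hwu) H.mem h⟩
  choose c hc1 hc2 using code
  refine ⟨y, c, hc1, ?_⟩
  intro A B hAB
  ext i
  rw [← hc2 A i, ← hc2 B i]
  exact LT_congr M R hAB

theorem coll (H : HypV M R t q p w0) {ι : Type w} [Nonempty ι] {x : M.D} (f : ι → M.D)
    (hf : ∀ i, LT' M R w0 q (f i) x) (hinj : ∀ i j, M.sim w0 (f i) (f j) → i = j)
    (F : ι → M.D) (hF : ∀ i, NM M R w0 q (F i)) :
    ∃ Y : M.D, NM M R w0 q Y ∧ ∀ i s, LT' M R w0 q s (F i) → LT' M R w0 q s Y := by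
  obtain ⟨i0⟩ := ‹Nonempty ι›
  have hx : ∀ w ∈ t, NM M R w q x := fun w hw => H.nmr x w0 w H.mem hw (hf i0).2.1
  have hfn : ∀ i, ∀ w ∈ t, NM M R w q (f i) := fun i w hw => H.nmr _ w0 w H.mem hw (hf i).1
  have hFn : ∀ i, ∀ w ∈ t, NM M R w q (F i) := fun i w hw => H.nmr _ w0 w H.mem hw (hF i)
  have hfx : ∀ i, ∀ w ∈ t, LT' M R w q (f i) x := fun i w hw => H.ltr H.mem hw (hf i)
  let u : Set M.W := {w | w ∈ t ∧ ∃ i, RR M R w (f i) (f i) ∧ RR M R w q (F i)}
  have hut : u ⊆ t := fun w hw => hw.1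
  have hwi : ∀ i, ∃ w ∈ u, RR M R w (f i) (f i) ∧ RR M R w q (F i) := by
    intro i
    obtain ⟨⟨w1, hw1, hr1, hq1, _⟩, _⟩ := H.e8 (f i) (F i) (hfn i) (hFn i)
    exact ⟨w1, ⟨hw1, i, hr1, hq1⟩, hr1, hq1⟩
  obtain ⟨Y, hY1, hY2⟩ := H.e9 x hx u hut (by
    intro z v hv hz hzz
    by_cases hne : ∃ w1, w1 ∈ v
    · obtain ⟨w1, hw1⟩ := hne
      obtain ⟨hwt1, i1, hi1, hq1⟩ := hv hw1
      refine ⟨F i1, fun w hw => hFn i1 w (hut (hv hw)), ?_⟩
      intro w hw
      obtain ⟨hwt, i, hi, hq⟩ := hv hw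
      have s1 : M.sim w1 z (f i1) :=
        H.e6 w1 hwt1 z (f i1) (hz w1 hw1).1 (hfn i1 w1 hwt1) (hzz w1 hw1) hi1
      have s2 : M.sim w z (f i) := H.e6 w hwt z (f i) (hz w hw).1 (hfn i w hwt) (hzz w hw) hi
      have s1' : M.sim w0 z (f i1) := H.simr hwt1 H.mem s1
      have s2' : M.sim w0 z (f i) := H.simr hwt H.mem s2
      have hii : i1 = i := hinj i1 i ((M.sim_equiv w0).trans ((M.sim_equiv w0).symm s1') s2')
      rw [hii]
      exact hq
    · push Not at hne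
      exact ⟨x, fun w hw => absurd hw (hne w), fun w hw => absurd hw (hne w)⟩)
  refine ⟨Y, ?_, ?_⟩
  · obtain ⟨w, hwu, _⟩ := hwi i0
    exact H.nmr Y w w0 (hut hwu) H.mem (hY1 w hwu)
  · intro i s hs
    obtain ⟨w, hwu, hr, hq⟩ := hwi i
    exact H.ltr (hut hwu) H.mem (hY2 (f i) (F i) s w hwu (hfx i w (hut hwu))
      (hFn i w (hut hwu)) hr hq (H.ltr H.mem (hut hwu) hs))

theorem power (H : HypV M R t q p w0) {x : M.D} (hx : en M R q w0 x ≠ 0) :
    ∃ y : M.D, NM M R w0 q y ∧ (2 : Cardinal.{v}) ^ en M R q w0 x ≤ en M R q w0 y := by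
  obtain ⟨f, hf, hinj⟩ := reps M R q w0 x
  have hne : Nonempty (ex M R q w0 x) := Cardinal.mk_ne_zero_iff.1 hx
  obtain ⟨y, f', hf', hinj'⟩ := H.step f hf hinj
  refine ⟨y, (hf' ∅).2.1, ?_⟩
  have := le_en f' hf' hinj'
  rw [Cardinal.mk_set] at this
  exact this

/-- the supremum of the numbers of elements of the names -/
noncomputable def kap (M : Model.{a, b, u, v} σ) (R : σ.Pred) (q : M.D) (w0 : M.W) :
    Cardinal.{v} := ⨆ y : {y : M.D // NM M R w0 q y}, en M R q w0 y.1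

theorem en_le (y : M.D) (hy : NM M R w0 q y) : en M R q w0 y ≤ kap M R q w0 :=
  le_ciSup (f := fun y : {y : M.D // NM M R w0 q y} => en M R q w0 y.1)
    (Cardinal.bddAbove_range _) ⟨y, hy⟩

theorem lt_kap {c : Cardinal.{v}} (h : c < kap M R q w0) :
    ∃ y : M.D, NM M R w0 q y ∧ c < en M R q w0 y := by
  obtain ⟨⟨y, hy⟩, h2⟩ := exists_lt_of_lt_ciSup' h
  exact ⟨y, hy, h2⟩

theorem inacc (H : HypV M R t q p w0) : (kap M R q w0).IsInaccessible := by
  obtain ⟨f0, hf0, hinj0⟩ := H.base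
  have hp : NM M R w0 q p := (hf0 0).2.1
  have h0 : ℵ₀ ≤ en M R q w0 p := by
    have := le_en (ι := ULift.{v} ℕ) (fun i => f0 i.down) (fun i => hf0 i.down)
      (fun i j h => ULift.ext _ _ (hinj0 _ _ h))
    simpa using this
  have hlt : ∀ y, NM M R w0 q y → en M R q w0 y < kap M R q w0 := by
    intro y hy
    by_cases h : en M R q w0 y = 0
    · rw [h]
      exact Cardinal.aleph0_pos.trans_le (h0.trans (en_le p hp))
    · obtain ⟨y', hy', hle⟩ := H.power h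
      exact (Cardinal.cantor _).trans_le (hle.trans (en_le y' hy'))
  refine ⟨h0.trans_lt (hlt p hp), ?_, ?_⟩
  · by_contra hcon
    push Not at hcon
    obtain ⟨ι, f, hf, hι⟩ := Ordinal.exists_lsub_cof (kap M R q w0).ord
    rw [← hι] at hcon
    obtain ⟨y, hy, hy2⟩ := lt_kap hcon
    have hne : Nonempty ι := by
      by_contra hemp
      rw [not_nonempty_iff] at hemp
      rw [Ordinal.lsub_empty] at hf
      have : kap M R q w0 = 0 := by
        have := congrArg Ordinal.card hf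
        simpa using this.symm
      have h3 := h0.trans_lt (hlt p hp)
      rw [this] at h3
      exact absurd h3 (not_lt.2 zero_le)
    have hF : ∀ i, ∃ yi : M.D, NM M R w0 q yi ∧ (f i).card < en M R q w0 yi := by
      intro i
      have h1 : f i < (kap M R q w0).ord := by
        rw [← hf]
        exact Ordinal.lt_lsub f i
      exact lt_kap (Cardinal.lt_ord.1 h1)
    choose F hF1 hF2 using hF
    obtain ⟨g, hg, hgi⟩ := reps M R q w0 y
    obtain ⟨j⟩ := (Cardinal.le_def _ _).1 hy2.le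
    obtain ⟨Y, hY1, hY2⟩ := H.coll (fun i => g (j i)) (fun i => hg (j i))
      (fun i i' h => j.injective (hgi _ _ h)) F hF1
    have hle : ∀ i, en M R q w0 (F i) ≤ en M R q w0 Y := by
      intro i
      refine Cardinal.mk_le_mk_of_subset ?_
      rintro s ⟨z, hz, rfl⟩
      exact ⟨z, hY2 i z hz, rfl⟩
    have h2 : (kap M R q w0).ord ≤ (en M R q w0 Y).ord := by
      rw [← hf]
      exact Ordinal.lsub_le fun i => Cardinal.lt_ord.2 ((hF2 i).trans_le (hle i))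
    exact absurd (Cardinal.ord_le_ord.1 h2) (not_le.2 (hlt Y hY1))
  · intro c hc
    obtain ⟨y, hy, hy2⟩ := lt_kap hc
    obtain ⟨y', hy', hle⟩ := H.power (x := y) (ne_of_gt (zero_le.trans_lt hy2))
    exact (Cardinal.power_le_power_left two_ne_zero hy2.le).trans_lt
      (hle.trans_lt (hlt y' hy'))

theorem kap_le_D : kap M R q w0 ≤ #M.D := by
  apply ciSup_le'
  rintro ⟨y, hy⟩
  exact (Cardinal.mk_set_le _).trans Cardinal.mk_quotient_le

theorem kap_le_W (H : HypV M R t q p w0) :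
    Cardinal.lift.{u} (kap M R q w0) ≤ Cardinal.lift.{v} #M.W := by
  refine Cardinal.lift_iSup_le (Cardinal.bddAbove_range _) ?_
  rintro ⟨y, hy⟩
  obtain ⟨f, hf, hinj⟩ := reps M R q w0 y
  have hfn : ∀ i, ∀ w ∈ t, NM M R w q (f i) := fun i w hw => H.nmr _ w0 w H.mem hw (hf i).1
  have : ∀ i, ∃ w ∈ t, RR M R w (f i) (f i) := by
    intro i
    obtain ⟨⟨w1, hw1, hr1, _⟩, _⟩ := H.e8 (f i) (f i) (hfn i) (hfn i)
    exact ⟨w1, hw1, hr1⟩
  choose m hm1 hm2 using this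
  refine Cardinal.lift_mk_le_lift_mk_of_injective (f := m) ?_
  intro i j h
  have h2 := hm2 j
  rw [← h] at h2
  exact hinj i j (H.simr (hm1 i) H.mem
    (H.e6 (m i) (hm1 i) _ _ (hfn i _ (hm1 i)) (hfn j _ (hm1 i)) (hm2 i) h2))

end HypV

theorem inacc_of_refutes (M : Model.{a, b, u, v} σ) (R : σ.Pred) (t : Set M.W) (g : ℕ → M.D)
    (hθ : Supports M t g (thetV R)) (hχ : ¬ Supports M t g (chiV R)) :
    ∃ κ : Cardinal.{v}, κ.IsInaccessible ∧ κ ≤ #M.D ∧
      Cardinal.lift.{u} κ ≤ Cardinal.lift.{v} #M.W := by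
  obtain ⟨w0, H⟩ := hypV_of_refutes M R t g hθ hχ
  exact ⟨_, H.inacc, HypV.kap_le_D, H.kap_le_W⟩

end Pool.Agent.Y639.Inq
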