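import Pool.Agent.Y639.Inq.CmVCode
import Pool.Agent.Y639.Inq.BigV

set_option autoImplicit false

namespace Pool.Agent.Y639.Inq

open Pool.Agent.Results.MP_130315_lc.UncountableDomain
open Cardinal

universe a b u v

variable {σ : Sig.{a, b}} {N : Type v} {el : N → N → Prop} {n0 : N} {κ : Cardinal.{v}}

theorem cmV_thet (H : IsHered el κ) (hκ : κ.IsInaccessible) (R : σ.Pred)
    (hR : 2 ≤ σ.predAr R) (c : N) (n : ℕ → N) (hc : ∀ z, el z c ↔ ∃ i, z = n i)
    (hn : ∀ i j, el (n i) (n j) ↔ i < j) :
    Supports (cmV σ R el n0) Set.univ (gV σ R el n0 c) (thetV R) := by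
  have g4 : ∀ (x y z : (cmV σ R el n0).D),
      Function.update (Function.update (Function.update (gV σ R el n0 c) 1 x) 2 y) 3 z 4 =
        idV σ R el n0 (some c) := by
    intro x y z
    simp [Function.update, gV]
  have g24 : ∀ (x y : (cmV σ R el n0).D),
      Function.update (Function.update (gV σ R el n0 c) 1 x) 2 y 4 =
        idV σ R el n0 (some c) := by
    intro x y
    simp [Function.update, gV]
  have g14 : ∀ (x : (cmV σ R el n0).D),
      Function.update (gV σ R el n0 c) 1 x 4 = idV σ R el n0 (some c) := by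
    intro x
    simp [Function.update, gV]
  have g30 : ∀ (x y z : (cmV σ R el n0).D),
      Function.update (Function.update (Function.update (gV σ R el n0 c) 1 x) 2 y) 3 z 0 =
        idV σ R el n0 none := by
    intro x y z
    simp [Function.update, gV]
  have g31 : ∀ (x y z : (cmV σ R el n0).D),
      Function.update (Function.update (Function.update (gV σ R el n0 c) 1 x) 2 y) 3 z 1 = x := by
    intro x y z
    simp [Function.update]
  have g32 : ∀ (x y z : (cmV σ R el n0).D),
      Function.update (Function.update (Function.update (gV σ R el n0 c) 1 x) 2 y) 3 z 2 = y := by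
    intro x y z
    simp [Function.update]
  have g33 : ∀ (x y z : (cmV σ R el n0).D),
      Function.update (Function.update (Function.update (gV σ R el n0 c) 1 x) 2 y) 3 z 3 = z := by
    intro x y z
    simp
  have g20 : ∀ (x y : (cmV σ R el n0).D),
      Function.update (Function.update (gV σ R el n0 c) 1 x) 2 y 0 = idV σ R el n0 none := by
    intro x y
    simp [Function.update, gV]
  have g21 : ∀ (x y : (cmV σ R el n0).D),
      Function.update (Function.update (gV σ R el n0 c) 1 x) 2 y 1 = x := by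
    intro x y
    simp [Function.update]
  have g22 : ∀ (x y : (cmV σ R el n0).D),
      Function.update (Function.update (gV σ R el n0 c) 1 x) 2 y 2 = y := by
    intro x y
    simp
  have g10 : ∀ (x : (cmV σ R el n0).D),
      Function.update (gV σ R el n0 c) 1 x 0 = idV σ R el n0 none := by
    intro x
    simp [Function.update, gV]
  have g11 : ∀ (x : (cmV σ R el n0).D), Function.update (gV σ R el n0 c) 1 x 1 = x := by
    intro x
    simp
  refine ⟨?_, ?_, ?_, ?_, ?_, ?_, ?_, ?_, ?_⟩
  · intro x y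
    rw [supports_whether, supports_ee, g21, g22]
    by_cases hxy : ipV x = ipV y
    · left
      intro w _
      rw [cmV_sim]
      exact hxy
    · right
      intro w _ hs
      rw [supports_ee, g21, g22] at hs
      exact hxy ((cmV_sim R w x y).1 (hs w rfl))
  · intro x y u hu hne
    obtain ⟨hne1, hne2⟩ := hne
    rw [supports_whether, supports_rr, g21, g22]
    by_cases hemp : u = ∅
    · left
      intro w hw
      rw [hemp] at hw
      exact absurd hw (Set.notMem_empty w)
    obtain ⟨w0, hw0⟩ := Set.nonempty_iff_ne_empty.mpr hemp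
    have hxy : ipV x ≠ ipV y := by
      intro h
      rw [supports_neg] at hne1
      apply hne1 w0 hw0
      rw [supports_ee, g21, g22]
      intro w _
      rw [cmV_sim]
      exact h
    have hx0 : ipV x ≠ none := by
      intro h
      rw [supports_neg] at hne2
      apply hne2 w0 hw0
      rw [supports_ee, g21, g20]
      intro w _
      rw [cmV_sim]
      exact h
    by_cases hr : relV el (wpV w0) (ipV x) (ipV y)
    · left
      intro w _
      rw [cmV_RR R hR]
      exact relV_key _ _ _ _ hxy hx0 hr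
    · right
      intro w _ hs
      rw [supports_rr, g21, g22] at hs
      have := (cmV_RR R hR _ _ _).1 (hs w rfl)
      exact hr (relV_key _ _ _ _ hxy hx0 this)
  · rw [supports_cex]
    intro w _
    refine ⟨idV σ R el n0 (some (n 0)), ?_⟩
    rw [supports_lt, g10, g11, g14]
    intro w' _
    rw [cmV_LT H.irrefl R hR]
    exact ⟨_, _, rfl, rfl, (hc _).2 ⟨0, rfl⟩⟩
  · intro x u hu hx
    rw [supports_cex]
    intro w hw
    rw [supports_lt, g10, g11, g14] at hx
    obtain ⟨m, c', hm, hc', hel⟩ := (cmV_LT H.irrefl R hR w x _).1 (hx w hw)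
    have hcc : c = c' := Option.some.inj hc'
    rw [← hcc] at hel
    obtain ⟨i, rfl⟩ := (hc m).1 hel
    refine ⟨idV σ R el n0 (some (n (i + 1))), ?_, ?_⟩
    · rw [supports_lt, g20, g22, g24]
      intro w' _
      rw [cmV_LT H.irrefl R hR]
      exact ⟨_, _, rfl, rfl, (hc _).2 ⟨i + 1, rfl⟩⟩
    · rw [supports_lt, g20, g21, g22]
      intro w' _
      rw [cmV_LT H.irrefl R hR]
      exact ⟨_, _, hm, rfl, (hn i (i + 1)).2 (Nat.lt_succ_self i)⟩
  · intro x y z u hu hpre
    obtain ⟨⟨h1, h2, h3⟩, h4, h5⟩ := hpre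
    rw [supports_lt, g30, g31, g4] at h1
    rw [supports_lt, g30, g32, g4] at h2
    rw [supports_lt, g30, g33, g4] at h3
    rw [supports_lt, g30, g31, g32] at h4
    rw [supports_lt, g30, g32, g33] at h5
    rw [supports_lt, g30, g31, g33]
    intro w hw
    have nat : ∀ x : (cmV σ R el n0).D, LT' (cmV σ R el n0) R w (idV σ R el n0 none) x
        (idV σ R el n0 (some c)) → ∃ i : ℕ, ipV x = some (n i) := by
      intro x hx
      obtain ⟨m, c', hm, hc', hel⟩ := (cmV_LT H.irrefl R hR w x _).1 hx
      have hcc : c = c' := Option.some.inj hc'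
      rw [← hcc] at hel
      obtain ⟨i, rfl⟩ := (hc m).1 hel
      exact ⟨i, hm⟩
    obtain ⟨i, hi⟩ := nat x (h1 w hw)
    obtain ⟨j, hj⟩ := nat y (h2 w hw)
    obtain ⟨k, hk⟩ := nat z (h3 w hw)
    obtain ⟨m, l, hm, hl, hel⟩ := (cmV_LT H.irrefl R hR w _ _).1 (h4 w hw)
    obtain ⟨m', l', hm', hl', hel'⟩ := (cmV_LT H.irrefl R hR w _ _).1 (h5 w hw)
    have e1 : n i = m := Option.some.inj (hi.symm.trans hm)
    have e2 : n j = l := Option.some.inj (hj.symm.trans hl)
    have e3 : n j = m' := Option.some.inj (hj.symm.trans hm')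
    have e4 : n k = l' := Option.some.inj (hk.symm.trans hl')
    rw [← e1, ← e2] at hel
    rw [← e3, ← e4] at hel'
    rw [cmV_LT H.irrefl R hR]
    exact ⟨_, _, hi, hk, (hn i k).2 (((hn i j).1 hel).trans ((hn j k).1 hel'))⟩
  · intro x y u hu hpre
    obtain ⟨⟨h1, h2⟩, h3, h4⟩ := hpre
    rw [supports_nm, g20, g21] at h1
    rw [supports_nm, g20, g22] at h2
    rw [supports_rr, g21] at h3
    rw [supports_rr, g22] at h4
    rw [supports_ee, g21, g22]
    intro w hw
    obtain ⟨m, hm⟩ := (cmV_NM R hR w x).1 (h1 w hw)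
    obtain ⟨l, hl⟩ := (cmV_NM R hR w y).1 (h2 w hw)
    have h3' := (cmV_RR R hR _ _ _).1 (h3 w hw)
    have h4' := (cmV_RR R hR _ _ _).1 (h4 w hw)
    rw [hm] at h3'
    rw [hl] at h4'
    have hm' : (wpV w).1.1 = m := by
      rcases h3' with h | h
      · exact absurd h (H.irrefl m)
      · exact h.2
    have hl' : (wpV w).1.1 = l := by
      rcases h4' with h | h
      · exact absurd h (H.irrefl l)
      · exact h.2
    rw [cmV_sim, hm, hl, ← hm', ← hl']
  · intro x y u hu hpre
    obtain ⟨⟨h1, h2⟩, h3, h4⟩ := hpre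
    rw [supports_nm, g20, g21] at h1
    rw [supports_nm, g20, g22] at h2
    rw [supports_rr, g20, g21] at h3
    rw [supports_rr, g20, g22] at h4
    rw [supports_ee, g21, g22]
    intro w hw
    obtain ⟨m, hm⟩ := (cmV_NM R hR w x).1 (h1 w hw)
    obtain ⟨l, hl⟩ := (cmV_NM R hR w y).1 (h2 w hw)
    have h3' := (cmV_RR R hR _ _ _).1 (h3 w hw)
    have h4' := (cmV_RR R hR _ _ _).1 (h4 w hw)
    rw [hm] at h3'
    rw [hl] at h4'
    have hm' : (wpV w).1.2 = m := h3'
    have hl' : (wpV w).1.2 = l := h4'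
    rw [cmV_sim, hm, hl, ← hm', ← hl']
  · intro x s _ hx
    exact cmV_code H hκ R hR c x s hx
  · intro x s _ hx s' hs' hfun
    exact cmV_coll H hκ R hR c x s' (supports_mono _ _ _ _ _ hs' hx) hfun

theorem exists_countermodel (σ : Sig.{a, b}) (R : σ.Pred) (hR : 2 ≤ σ.predAr R)
    (hκ : κ.IsInaccessible) :
    ∃ M : Model.{a, b, v, v} σ, #M.W = κ ∧ #M.D = κ ∧
      ∃ (s : Set M.W) (g : ℕ → M.D), ¬ Supports M s g (phiV R) := by
  obtain ⟨N, el, hN, H⟩ := exists_hered κ hκ
  obtain ⟨c, n, hc, hn⟩ := exists_nums H hκ.aleph0_lt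
  refine ⟨cmV σ R el c, ?_, ?_, Set.univ, gV σ R el c c, ?_⟩
  · change #((N × N) × Bool) = κ
    rw [Cardinal.mk_prod, Cardinal.mk_prod, hN]
    simp only [Cardinal.lift_id, Cardinal.mk_bool]
    rw [Cardinal.mul_eq_self hκ.aleph0_lt.le, Cardinal.lift_ofNat, Cardinal.lift_uzero]
    exact Cardinal.mul_eq_left hκ.aleph0_lt.le (by
      have := (Cardinal.natCast_lt_aleph0 (n := 2)).le.trans hκ.aleph0_lt.le
      exact_mod_cast this) two_ne_zero
  · change #(Option N) = κ
    rw [Cardinal.mk_option, hN]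
    exact Cardinal.add_one_eq hκ.aleph0_lt.le
  · intro h
    exact cmV_chi R hR c (h Set.univ (Set.Subset.refl _) (cmV_thet H hκ R hR c n hc hn))

end Pool.Agent.Y639.Inq
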