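import Pool.Agent.Y639.Inq.Sem

set_option autoImplicit false

namespace Pool.Agent.Y639.Inq

open Pool.Agent.Results.MP_130315_lc.UncountableDomain

universe a b u v

variable {σ : Sig.{a, b}} {M : Model.{a, b, u, v} σ} {R : σ.Pred} {t : Set M.W} {q p : M.D}
  {w0 : M.W}

namespace Hyp

theorem nmr (H : Hyp M R t q p w0) (x : M.D) (w w' : M.W) (hw : w ∈ t) (hw' : w' ∈ t)
    (h : NM M R w q x) : NM M R w' q x := by
  have hs : ∀ w ∈ t, ¬ M.sim w x q := by
    rcases H.e1 x q with h' | h'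
    · exact absurd (h' w hw) h.1
    · exact h'
  refine ⟨hs w' hw', ?_⟩
  rcases H.e2 x q hs with h' | h'
  · exact h' w' hw'
  · exact absurd h.2 (h' w hw)

theorem simr (H : Hyp M R t q p w0) {x y : M.D} {w w' : M.W} (hw : w ∈ t) (hw' : w' ∈ t)
    (h : M.sim w x y) : M.sim w' x y := by
  rcases H.e1 x y with h' | h'
  · exact h' w' hw'
  · exact absurd h (h' w hw)

theorem ltr (H : Hyp M R t q p w0) {x y : M.D} {w w' : M.W} (hw : w ∈ t) (hw' : w' ∈ t)
    (h : LT' M R w q x y) : LT' M R w' q x y := by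
  have hs : ∀ w ∈ t, ¬ M.sim w x y := by
    rcases H.e1 x y with h' | h'
    · exact absurd (h' w hw) h.2.2.1
    · exact h'
  refine ⟨H.nmr x w w' hw hw' h.1, H.nmr y w w' hw hw' h.2.1, hs w' hw', ?_⟩
  rcases H.e2 x y hs with h' | h'
  · exact h' w' hw'
  · exact absurd h.2.2.2 (h' w hw)

/-- a family of pairwise different elements of the name `x`, indexed by `ι` -/
def Fam (M : Model.{a, b, u, v} σ) (R : σ.Pred) (q : M.D) (w0 : M.W) (ι : Type) : Prop :=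
  ∃ (x : M.D) (f : ι → M.D), (∀ i, LT' M R w0 q (f i) x) ∧
    ∀ i j, M.sim w0 (f i) (f j) → i = j

theorem base (H : Hyp M R t q p w0) : Fam M R q w0 ℕ := by
  obtain ⟨x0, hx0⟩ := H.e3
  have e4 := H.e4
  choose! nxt hn1 hn2 using e4
  let s : ℕ → M.D := fun n => Nat.rec x0 (fun _ x => nxt x) n
  have hs : ∀ n, LT' M R w0 q (s n) p := by
    intro n
    induction n with
    | zero => exact hx0
    | succ n ih => exact hn1 (s n) ih
  have hsucc : ∀ n, LT' M R w0 q (s n) (s (n + 1)) := fun n => hn2 (s n) (hs n)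
  have halt : ∀ i k, LT' M R w0 q (s i) (s (i + k + 1)) := by
    intro i k
    induction k with
    | zero => exact hsucc i
    | succ k ih =>
      have := H.e5 (s i) (s (i + k + 1)) (s (i + k + 1 + 1)) (hs i) (hs (i + k + 1))
        (hs (i + k + 1 + 1)) ih (hsucc (i + k + 1))
      exact this
  have hane : ∀ i j, i < j → ¬ M.sim w0 (s i) (s j) := by
    intro i j hij
    obtain ⟨k, rfl⟩ := Nat.exists_eq_add_of_lt hij
    exact (halt i k).2.2.1
  refine ⟨p, s, hs, ?_⟩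
  intro i j h
  rcases lt_trichotomy i j with hlt | heq | hgt
  · exact absurd h (hane i j hlt)
  · exact heq
  · exact absurd ((M.sim_equiv w0).symm h) (hane j i hgt)

theorem step (H : Hyp M R t q p w0) {ι : Type} [Nonempty ι] (h : Fam M R q w0 ι) :
    Fam M R q w0 (Set ι) := by
  obtain ⟨x, f, hf, hinj⟩ := h
  obtain ⟨i0⟩ := ‹Nonempty ι›
  have hx : ∀ w ∈ t, NM M R w q x := fun w hw => H.nmr x w0 w H.mem hw (hf i0).2.1
  have hfn : ∀ i, ∀ w ∈ t, NM M R w q (f i) := fun i w hw => H.nmr _ w0 w H.mem hw (hf i).1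
  have hfx : ∀ i, ∀ w ∈ t, LT' M R w q (f i) x := fun i w hw => H.ltr H.mem hw (hf i)
  obtain ⟨y, hy, hcode⟩ := H.e7 x hx
  have code : ∀ A : Set ι, ∃ c : M.D, LT' M R w0 q c y ∧
      ∀ i : ι, (LT' M R w0 q (f i) c ↔ i ∈ A) := by
    intro A
    let u : Set M.W := {w | w ∈ t ∧ ∃ i, RR M R w (f i) (f i) ∧ (RR M R w q q ↔ i ∈ A)}
    have hut : u ⊆ t := fun w hw => hw.1
    have hwi : ∀ i, ∃ w ∈ u, RR M R w (f i) (f i) ∧ (RR M R w q q ↔ i ∈ A) := by
      intro i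
      obtain ⟨⟨w1, hw1, hr1, hq1⟩, ⟨w2, hw2, hr2, hq2⟩⟩ := H.e8 (f i) (hfn i)
      by_cases hiA : i ∈ A
      · exact ⟨w1, ⟨hw1, i, hr1, by simp [hiA, hq1]⟩, hr1, by simp [hiA, hq1]⟩
      · exact ⟨w2, ⟨hw2, i, hr2, by simp [hiA, hq2]⟩, hr2, by simp [hiA, hq2]⟩
    obtain ⟨c, hc1, hc2⟩ := hcode u hut (by
      intro z v hv hz hzz
      by_cases hex : ∃ w ∈ v, RR M R w q q
      · left
        intro w' hw'
        obtain ⟨w, hw, hQ⟩ := hex
        obtain ⟨hwt, i, hi, hiA⟩ := hv hw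
        obtain ⟨hwt', i', hi', hiA'⟩ := hv hw'
        have s1 : M.sim w z (f i) := H.e6 w hwt z (f i) (hz w hw).1 (hfn i w hwt) (hzz w hw) hi
        have s2 : M.sim w' z (f i') :=
          H.e6 w' hwt' z (f i') (hz w' hw').1 (hfn i' w' hwt') (hzz w' hw') hi'
        have s1' : M.sim w0 z (f i) := H.simr hwt H.mem s1
        have s2' : M.sim w0 z (f i') := H.simr hwt' H.mem s2
        have hii : i = i' :=
          hinj i i' ((M.sim_equiv w0).trans ((M.sim_equiv w0).symm s1') s2')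
        subst hii
        exact hiA'.2 (hiA.1 hQ)
      · right
        intro w hw hQ
        exact hex ⟨w, hw, hQ⟩)
    refine ⟨c, ?_, ?_⟩
    · obtain ⟨w, hwu, _⟩ := hwi i0
      exact H.ltr (hut hwu) H.mem (hc1 w hwu)
    · intro i
      obtain ⟨w, hwu, hr, hq⟩ := hwi i
      have := hc2 (f i) w hwu (hfx i w (hut hwu)) hr (fun w' hw' => hfx i w' (hut hw'))
      rw [← hq, ← this]
      exact ⟨fun h => H.ltr H.mem (hut hwu) h, fun h => H.ltr (hut hwu) H.mem h⟩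
  choose c hc1 hc2 using code
  refine ⟨y, c, hc1, ?_⟩
  intro A B hAB
  ext i
  rw [← hc2 A i, ← hc2 B i]
  exact LT_congr M R hAB

theorem fam (H : Hyp M R t q p w0) : ∀ n, Fam M R q w0 (Tn n)
  | 0 => H.base
  | n + 1 => H.step (H.fam n)

theorem inj (H : Hyp M R t q p w0) (n : ℕ) :
    (∃ f : Tn n → M.D, Function.Injective f) ∧ (∃ m : Tn n → M.W, Function.Injective m) := by
  obtain ⟨x, f, hf, hinj⟩ := H.fam n
  refine ⟨⟨f, fun i j h => hinj i j (by rw [h]; exact (M.sim_equiv w0).refl _)⟩, ?_⟩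
  have hfn : ∀ i, ∀ w ∈ t, NM M R w q (f i) := fun i w hw => H.nmr _ w0 w H.mem hw (hf i).1
  have : ∀ i, ∃ w ∈ t, RR M R w (f i) (f i) := by
    intro i
    obtain ⟨⟨w1, hw1, hr1, _⟩, _⟩ := H.e8 (f i) (hfn i)
    exact ⟨w1, hw1, hr1⟩
  choose m hm1 hm2 using this
  refine ⟨m, fun i j h => hinj i j ?_⟩
  have h2 := hm2 j
  rw [← h] at h2
  exact H.simr (hm1 i) H.mem
    (H.e6 (m i) (hm1 i) _ _ (hfn i _ (hm1 i)) (hfn j _ (hm1 i)) (hm2 i) h2)

end Hyp

open Cardinal in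
theorem mk_Tn : ∀ n : ℕ, #(Tn n) = ℶ_ (n : Ordinal)
  | 0 => by
    change #ℕ = _
    simp
  | n + 1 => by
    change #(Set (Tn n)) = _
    rw [Cardinal.mk_set, mk_Tn n, ← Cardinal.beth_succ]
    simp

open Cardinal in
theorem beth_le {α : Type u} (h : ∀ n : ℕ, ∃ f : Tn n → α, Function.Injective f) :
    ℶ_ (Ordinal.omega0) ≤ #α := by
  rw [Cardinal.beth_limit Ordinal.isSuccLimit_omega0]
  apply ciSup_le'
  rintro ⟨o, ho⟩
  obtain ⟨n, rfl⟩ := Ordinal.lt_omega0.1 ho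
  obtain ⟨f, hf⟩ := h n
  have h1 := Cardinal.mk_le_of_injective (f := fun x : ULift.{u} (Tn n) => f x.down)
    (fun x y hxy => ULift.ext _ _ (hf hxy))
  rw [Cardinal.mk_uLift, mk_Tn, Cardinal.lift_beth] at h1
  simpa using h1

open Cardinal in
theorem big_of_refutes (M : Model.{a, b, u, v} σ) (R : σ.Pred) (t : Set M.W) (g : ℕ → M.D)
    (hθ : Supports M t g (thet R)) (hχ : ¬ Supports M t g (chi R)) :
    ℶ_ (Ordinal.omega0) ≤ #M.W ∧ ℶ_ (Ordinal.omega0) ≤ #M.D := by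
  obtain ⟨w0, H⟩ := hyp_of_refutes M R t g hθ hχ
  exact ⟨beth_le fun n => (H.inj n).2, beth_le fun n => (H.inj n).1⟩

end Pool.Agent.Y639.Inq
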