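import Pool.Agent.Y639.Inq.Formula

set_option autoImplicit false

namespace Pool.Agent.Y639.Inq

open Pool.Agent.Results.MP_130315_lc.UncountableDomain

universe a b u v

/-- the names: elements of the iterated power sets of the natural numbers -/
abbrev Nm : Type := Σ n, Tn n

/-- the membership relation of the names; on the natural numbers it is the order -/
def El (x y : Nm) : Prop :=
  (∃ i j : ℕ, x = ⟨0, (i : ℕ)⟩ ∧ y = ⟨0, (j : ℕ)⟩ ∧ i < j) ∨
  (∃ (n : ℕ) (z : Tn n) (A : Set (Tn n)), x = ⟨n, z⟩ ∧ y = ⟨n + 1, A⟩ ∧ z ∈ A)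

theorem el_nat (i j : ℕ) : El ⟨0, (i : ℕ)⟩ ⟨0, (j : ℕ)⟩ ↔ i < j := by
  constructor
  · rintro (⟨i', j', h1, h2, h3⟩ | ⟨n, z, A, h1, h2, h3⟩)
    · have e1 : (i : ℕ) = i' := eq_of_heq (Sigma.mk.inj h1).2
      have e2 : (j : ℕ) = j' := eq_of_heq (Sigma.mk.inj h2).2
      omega
    · have := (Sigma.mk.inj h2).1
      omega
  · intro h
    exact Or.inl ⟨i, j, rfl, rfl, h⟩

theorem el_set (n : ℕ) (z : Tn n) (A : Set (Tn n)) : El ⟨n, z⟩ ⟨n + 1, A⟩ ↔ z ∈ A := by
  constructor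
  · rintro (⟨i', j', h1, h2, h3⟩ | ⟨n', z', A', h1, h2, h3⟩)
    · have := (Sigma.mk.inj h2).1
      omega
    · obtain ⟨e1, e2⟩ := Sigma.mk.inj h1
      subst e1
      have e2' := eq_of_heq e2
      subst e2'
      have e3 : A = A' := eq_of_heq (Sigma.mk.inj h2).2
      rw [e3]
      exact h3
  · intro h
    exact Or.inr ⟨n, z, A, rfl, rfl, h⟩

theorem el_irrefl (x : Nm) : ¬ El x x := by
  rintro (⟨i, j, h1, h2, h3⟩ | ⟨n, z, A, h1, h2, h3⟩)
  · rw [h1] at h2
    have : (i : ℕ) = j := eq_of_heq (Sigma.mk.inj h2).2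
    omega
  · rw [h1] at h2
    have := (Sigma.mk.inj h2).1
    omega

theorem el_level {x y : Nm} (h : El x y) : ∃ z : Tn (y.1 - 1), x = ⟨y.1 - 1, z⟩ := by
  rcases h with ⟨i, j, h1, h2, h3⟩ | ⟨n, z, A, h1, h2, h3⟩
  · subst h1
    subst h2
    exact ⟨i, rfl⟩
  · subst h1
    subst h2
    exact ⟨z, rfl⟩

/-- The individuals of the countermodel: one parameter (`none`) and the names. -/
abbrev Ind' : Type := Option Nm

/-- The relation `R` of the countermodel at the world `(x, b)`. -/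
def relT (w : Nm × Bool) : Ind' → Ind' → Prop
  | none, none => w.2 = true
  | some _, none => True
  | some x, some y => El x y ∨ (x = y ∧ w.1 = x)
  | none, some _ => False

/-- The countermodel. -/
def cmT (σ : Sig.{a, b}) (R : σ.Pred) : Model.{a, b, 0, 0} σ where
  W := Nm × Bool
  D := Ind'
  nonemptyW := ⟨(⟨0, (0 : ℕ)⟩, true)⟩
  nonemptyD := ⟨none⟩
  predI w P v := P = R ∧ ∃ x y : Ind', relT w x y ∧ (∀ i, i.val = 0 → v i = x) ∧
    (∀ i, i.val = 1 → v i = y)
  fnI _ _ _ := none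
  rigid_eq _ _ _ _ := rfl
  sim _ x y := x = y
  sim_equiv _ := ⟨fun _ => rfl, fun h => h.symm, fun h h' => h.trans h'⟩
  sim_pred w P x y h := by
    have : x = y := funext h
    rw [this]
  sim_fn _ _ _ _ _ := rfl

variable {σ : Sig.{a, b}}

/-- the world `(x, b)` of the countermodel -/
def wdT (σ : Sig.{a, b}) (R : σ.Pred) (w : Nm × Bool) : (cmT σ R).W := w

/-- the world as a pair -/
def wpT {σ : Sig.{a, b}} {R : σ.Pred} (w : (cmT σ R).W) : Nm × Bool := w

/-- an individual of the countermodel -/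
def idT (σ : Sig.{a, b}) (R : σ.Pred) (x : Ind') : (cmT σ R).D := x

/-- an individual of the countermodel, seen as an element of `Ind'` -/
def ipT {σ : Sig.{a, b}} {R : σ.Pred} (x : (cmT σ R).D) : Ind' := x

theorem cmT_sim (R : σ.Pred) (w : (cmT σ R).W) (x y : (cmT σ R).D) :
    (cmT σ R).sim w x y ↔ ipT x = ipT y := Iff.rfl

theorem cmT_RR (R : σ.Pred) (hR : 2 ≤ σ.predAr R) (w : (cmT σ R).W) (x y : (cmT σ R).D) :
    RR (cmT σ R) R w x y ↔ relT (wpT w) (ipT x) (ipT y) := by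
  constructor
  · rintro ⟨_, x', y', h, hx, hy⟩
    have h0 : ipT x = x' := hx ⟨0, by omega⟩ rfl
    have h1 : ipT y = y' := by
      have := hy ⟨1, by omega⟩ rfl
      exact this
    rw [h0, h1]
    exact h
  · intro h
    refine ⟨rfl, x, y, h, ?_, ?_⟩
    · intro i hi
      exact if_pos hi
    · intro i hi
      exact if_neg (by omega)

theorem cmT_NM (R : σ.Pred) (hR : 2 ≤ σ.predAr R) (w : (cmT σ R).W) (x : (cmT σ R).D) :
    NM (cmT σ R) R w (idT σ R none) x ↔ ∃ n, ipT x = some n := by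
  unfold NM
  rw [cmT_RR R hR, cmT_sim]
  change (¬ ipT x = none ∧ relT (wpT w) (ipT x) none) ↔ _
  generalize ipT x = x
  constructor
  · rintro ⟨h1, h2⟩
    cases x with
    | none => exact absurd rfl h1
    | some n => exact ⟨n, rfl⟩
  · rintro ⟨n, rfl⟩
    exact ⟨by simp, trivial⟩

theorem cmT_LT (R : σ.Pred) (hR : 2 ≤ σ.predAr R) (w : (cmT σ R).W) (x y : (cmT σ R).D) :
    LT' (cmT σ R) R w (idT σ R none) x y ↔
      ∃ m n, ipT x = some m ∧ ipT y = some n ∧ El m n := by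
  unfold LT'
  rw [cmT_RR R hR, cmT_NM R hR, cmT_NM R hR, cmT_sim]
  generalize ipT x = x
  generalize ipT y = y
  constructor
  · rintro ⟨⟨m, rfl⟩, ⟨n, rfl⟩, hne, h⟩
    refine ⟨m, n, rfl, rfl, ?_⟩
    rcases h with h | ⟨h, _⟩
    · exact h
    · exfalso
      apply hne
      rw [h]
  · rintro ⟨m, n, rfl, rfl, h⟩
    refine ⟨⟨m, rfl⟩, ⟨n, rfl⟩, ?_, Or.inl h⟩
    intro h'
    have h3 : m = n := by simpa using h'
    rw [h3] at h
    exact el_irrefl n h

/-- the assignment of the countermodel -/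
def gT (σ : Sig.{a, b}) (R : σ.Pred) : ℕ → (cmT σ R).D :=
  fun k => if k = 4 then idT σ R (some ⟨1, (Set.univ : Set ℕ)⟩) else idT σ R none

theorem relT_key (w w' : Nm × Bool) (x y : Ind') (hxy : x ≠ y) (h : relT w x y) :
    relT w' x y := by
  cases x with
  | none =>
    cases y with
    | none => exact absurd rfl hxy
    | some n => exact h
  | some m =>
    cases y with
    | none => exact trivial
    | some n =>
      rcases h with h | h
      · exact Or.inl h
      · exact absurd (by rw [h.1]) hxy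

theorem el_univ1 (m : Nm) : El m ⟨1, (Set.univ : Set ℕ)⟩ ↔ ∃ i : ℕ, m = ⟨0, (i : ℕ)⟩ := by
  constructor
  · intro h
    obtain ⟨z, hz⟩ := el_level h
    exact ⟨z, hz⟩
  · rintro ⟨i, rfl⟩
    exact (el_set 0 i Set.univ).2 (Set.mem_univ _)

end Pool.Agent.Y639.Inq
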