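import Pool.Agent.Y639.Inq.Cm

set_option autoImplicit false

namespace Pool.Agent.Y639.Inq

open Pool.Agent.Results.MP_130315_lc.UncountableDomain

universe a b u v

variable {σ : Sig.{a, b}}

theorem cmT_chi (R : σ.Pred) (hR : 2 ≤ σ.predAr R) :
    ¬ Supports (cmT σ R) Set.univ (gT σ R) (chi R) := by
  have g00 : gT σ R 0 = idT σ R none := by simp [gT]
  rintro (⟨x, hx, h⟩ | ⟨x, hx, h⟩)
  · rw [supports_nm] at hx
    have hx' := hx (wdT σ R (⟨0, (0 : ℕ)⟩, true)) (Set.mem_univ _)
    have e0 : Function.update (gT σ R) 1 x 0 = idT σ R none := by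
      simp [Function.update, gT]
    rw [e0, Function.update_self] at hx'
    obtain ⟨n, hn⟩ := (cmT_NM R hR _ x).1 hx'
    have h1 := h {wdT σ R (n, false)} (Set.subset_univ _) (by
      rw [supports_rr, Function.update_self]
      intro w hw
      rw [single_mem hw, cmT_RR R hR, hn]
      exact Or.inr ⟨rfl, rfl⟩)
    rw [supports_rr, e0] at h1
    have h2 := (cmT_RR R hR _ _ _).1 (h1 _ rfl)
    exact Bool.noConfusion h2
  · rw [supports_nm] at hx
    have hx' := hx (wdT σ R (⟨0, (0 : ℕ)⟩, true)) (Set.mem_univ _)
    have e0 : Function.update (gT σ R) 1 x 0 = idT σ R none := by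
      simp [Function.update, gT]
    rw [e0, Function.update_self] at hx'
    obtain ⟨n, hn⟩ := (cmT_NM R hR _ x).1 hx'
    have h1 := h {wdT σ R (n, true)} (Set.subset_univ _) (by
      rw [supports_rr, Function.update_self]
      intro w hw
      rw [single_mem hw, cmT_RR R hR, hn]
      exact Or.inr ⟨rfl, rfl⟩)
    rw [supports_neg] at h1
    apply h1 _ rfl
    rw [supports_rr, e0]
    intro w hw
    rw [single_mem hw, cmT_RR R hR]
    exact rfl

theorem cmT_code (R : σ.Pred) (hR : 2 ≤ σ.predAr R) (x : (cmT σ R).D) (s : Set (cmT σ R).W)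
    (hx : Supports (cmT σ R) s (Function.update (gT σ R) 3 x) (nm R 3)) :
    Supports (cmT σ R) s (Function.update (gT σ R) 3 x)
      (.iex 5 (.and (nm R 5) (.imp (alp R) (bet R)))) := by
  by_cases hs : s = ∅
  · rw [hs]
    exact supports_empty _ _ _
  obtain ⟨w0, hw0⟩ := Set.nonempty_iff_ne_empty.mpr hs
  rw [supports_nm] at hx
  have hx0 := hx w0 hw0
  have e0 : Function.update (gT σ R) 3 x 0 = idT σ R none := by
    simp [Function.update, gT]
  rw [e0, Function.update_self] at hx0
  obtain ⟨X, hX⟩ := (cmT_NM R hR _ x).1 hx0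
  refine ⟨idT σ R (some ⟨X.1 - 1 + 1 + 1, (Set.univ : Set (Tn (X.1 - 1 + 1)))⟩), ?_, ?_⟩
  · rw [supports_nm]
    intro w _
    have e0 : Function.update (Function.update (gT σ R) 3 x) 5
        (idT σ R (some ⟨X.1 - 1 + 1 + 1, (Set.univ : Set (Tn (X.1 - 1 + 1)))⟩)) 0 =
          idT σ R none := by
      simp [Function.update, gT]
    rw [e0, Function.update_self]
    exact (cmT_NM R hR _ _).2 ⟨_, rfl⟩
  · intro u _ hα
    refine ⟨idT σ R (some ⟨X.1 - 1 + 1,
      ({z | wdT σ R (⟨X.1 - 1, z⟩, true) ∈ u} : Set (Tn (X.1 - 1)))⟩), ?_, ?_⟩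
    · rw [supports_lt]
      intro w _
      have key : LT' (cmT σ R) R w (idT σ R none)
          (idT σ R (some ⟨X.1 - 1 + 1,
            ({z | wdT σ R (⟨X.1 - 1, z⟩, true) ∈ u} : Set (Tn (X.1 - 1)))⟩))
          (idT σ R (some ⟨X.1 - 1 + 1 + 1, (Set.univ : Set (Tn (X.1 - 1 + 1)))⟩)) :=
        (cmT_LT R hR _ _ _).2 ⟨_, _, rfl, rfl, (el_set _ _ _).2 (Set.mem_univ _)⟩
      simpa [Function.update, gT] using key
    · intro y v hv hlt v' hv' hRy
      rw [supports_lt] at hlt
      rw [supports_rr] at hRy
      have hlt' : ∀ w ∈ v, LT' (cmT σ R) R w (idT σ R none) y x := by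
        intro w hw
        simpa [Function.update, gT] using hlt w hw
      have hRy' : ∀ w ∈ v', RR (cmT σ R) R w y y := by
        intro w hw
        simpa [Function.update, gT] using hRy w hw
      have key : ∀ w ∈ v', ∃ z : Tn (X.1 - 1), ipT y = some ⟨X.1 - 1, z⟩ ∧
          (wpT w).1 = ⟨X.1 - 1, z⟩ ∧
          (wdT σ R (⟨X.1 - 1, z⟩, true) ∈ u ↔ (wpT w).2 = true) := by
        intro w hw
        obtain ⟨Y, X', hY, hX', hel⟩ := (cmT_LT R hR w _ _).1 (hlt' w (hv' hw))
        rw [hX] at hX'
        have hXX : X = X' := by simpa using hX'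
        rw [← hXX] at hel
        obtain ⟨z, hz⟩ := el_level hel
        have h2 := (cmT_RR R hR _ _ _).1 (hRy' w hw)
        rw [hY] at h2
        have hwn : (wpT w).1 = Y := by
          rcases h2 with h | h
          · exact absurd h (el_irrefl Y)
          · exact h.2
        rw [hz] at hwn hY
        refine ⟨z, hY, hwn, ?_⟩
        have hwu : w ∈ u := hv (hv' hw)
        constructor
        · intro hnu
          have hsub : ({wdT σ R (⟨X.1 - 1, z⟩, true), w} : Set (cmT σ R).W) ⊆ u := by
            intro x hx
            rcases hx with hx | hx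
            · rw [hx]; exact hnu
            · rw [single_mem hx]; exact hwu
          have hh := hα (idT σ R (some ⟨X.1 - 1, z⟩)) {wdT σ R (⟨X.1 - 1, z⟩, true), w} hsub (by
            rw [supports_lt]
            intro w' _
            have : LT' (cmT σ R) R w' (idT σ R none) (idT σ R (some ⟨X.1 - 1, z⟩)) x := by
              rw [hz] at hel
              exact (cmT_LT R hR w' _ _).2 ⟨_, _, rfl, hX, hel⟩
            simpa [Function.update, gT] using this) {wdT σ R (⟨X.1 - 1, z⟩, true), w}
              (Set.Subset.refl _) (by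
            rw [supports_rr, Function.update_self]
            intro w' hw'
            rw [cmT_RR R hR]
            refine Or.inr ⟨rfl, ?_⟩
            rcases hw' with hw' | hw'
            · rw [hw']; rfl
            · rw [single_mem hw']; exact hwn)
          rw [supports_whether] at hh
          rcases hh with hh | hh
          · rw [supports_rr] at hh
            have h3 := (cmT_RR R hR _ _ _).1 (hh w (Or.inr rfl))
            have h4 : ∀ (d1 d2 d3 : (cmT σ R).D), Function.update (Function.update
                (Function.update (gT σ R) 3 d1) 5 d2) 2 d3 0 = idT σ R none := by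
              intro d1 d2 d3
              simp [Function.update, gT]
            rw [h4] at h3
            exact h3
          · exfalso
            apply hh (wdT σ R (⟨X.1 - 1, z⟩, true)) (Or.inl rfl)
            rw [supports_rr]
            intro w' hw'
            rw [single_mem hw', cmT_RR R hR]
            have h4 : ∀ (d1 d2 d3 : (cmT σ R).D), Function.update (Function.update
                (Function.update (gT σ R) 3 d1) 5 d2) 2 d3 0 = idT σ R none := by
              intro d1 d2 d3
              simp [Function.update, gT]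
            rw [h4]
            exact rfl
        · intro hw2
          have : w = wdT σ R (⟨X.1 - 1, z⟩, true) := Prod.ext hwn hw2
          rw [← this]
          exact hwu
      have e0 : ∀ (d1 d2 d3 d4 : (cmT σ R).D), Function.update (Function.update (Function.update
          (Function.update (gT σ R) 3 d1) 5 d2) 1 d3) 2 d4 0 = idT σ R none := by
        intro d1 d2 d3 d4
        simp [Function.update, gT]
      have e1 : ∀ (d1 d2 d3 d4 : (cmT σ R).D), Function.update (Function.update (Function.update
          (Function.update (gT σ R) 3 d1) 5 d2) 1 d3) 2 d4 1 = d3 := by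
        intro d1 d2 d3 d4
        simp [Function.update]
      refine ⟨?_, ?_⟩
      · intro v2 hv2 h1
        rw [supports_lt, e0, e1, Function.update_self] at h1
        rw [supports_rr, e0]
        intro w hw
        obtain ⟨z, hz, hwn, hiff⟩ := key w (hv2 hw)
        obtain ⟨m, n, hm, hn, hel⟩ := (cmT_LT R hR w _ _).1 (h1 w hw)
        rw [hz] at hm
        have hm' : (⟨X.1 - 1, z⟩ : Nm) = m := by simpa using hm
        have hn' : (⟨X.1 - 1 + 1, ({z | wdT σ R (⟨X.1 - 1, z⟩, true) ∈ u} :
            Set (Tn (X.1 - 1)))⟩ : Nm) = n := Option.some.inj hn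
        rw [← hm', ← hn'] at hel
        have hmem := (el_set _ _ _).1 hel
        rw [cmT_RR R hR]
        exact hiff.1 hmem
      · intro v2 hv2 h1
        rw [supports_rr, e0] at h1
        rw [supports_lt, e0, e1, Function.update_self]
        intro w hw
        obtain ⟨z, hz, hwn, hiff⟩ := key w (hv2 hw)
        have h := (cmT_RR R hR _ _ _).1 (h1 w hw)
        exact (cmT_LT R hR w _ _).2 ⟨_, _, hz, rfl, (el_set _ _ _).2 (hiff.2 h)⟩

end Pool.Agent.Y639.Inq
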