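import Mathlib

set_option autoImplicit false

namespace Pool.Agent.Y639.Inq

open Cardinal

universe v

/-- A membership relation on a set of size `κ` for which exactly the sets of size less than `κ`
are sets of elements. -/
structure IsHered {N : Type v} (el : N → N → Prop) (κ : Cardinal.{v}) : Prop where
  irrefl : ∀ c, ¬ el c c
  small : ∀ c, #{z | el z c} < κ
  code : ∀ S : Set N, #S < κ → ∃ c, ∀ z, el z c ↔ z ∈ S

theorem exists_hered (κ : Cardinal.{v}) (hκ : κ.IsInaccessible) :
    ∃ (N : Type v) (el : N → N → Prop), #N = κ ∧ IsHered el κ := by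
  classical
  let N := κ.out
  have hN : #N = κ := Cardinal.mk_out κ
  have h1 : #{S : Set N // #S < κ} = κ := by
    have h2 := Cardinal.mk_subset_mk_lt_cof (α := N) (by rw [hN]; exact hκ.isStrongPrelimit)
    rw [hN] at h2
    rw [hκ.isRegular.cof_eq] at h2
    exact h2
  have h3 : #({S : Set N // #S < κ} × N) = κ := by
    rw [Cardinal.mk_prod, Cardinal.lift_id, Cardinal.lift_id, h1, hN]
    exact Cardinal.mul_eq_self hκ.aleph0_lt.le
  obtain ⟨e⟩ := Cardinal.eq.1 (hN.trans h3.symm)
  refine ⟨N, fun z c => z ∈ (e c).1.1 ∧ z ≠ c, hN, ?_, ?_, ?_⟩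
  · rintro c ⟨_, h⟩
    exact h rfl
  · intro c
    exact (Cardinal.mk_le_mk_of_subset (fun z hz => hz.1)).trans_lt (e c).1.2
  · intro S hS
    have hex : ∃ x : N, e.symm (⟨S, hS⟩, x) ∉ S := by
      by_contra hcon
      push Not at hcon
      have hle : #N ≤ #S := Cardinal.mk_le_of_injective
        (f := fun x : N => (⟨e.symm (⟨S, hS⟩, x), hcon x⟩ : S)) (by
          intro x y hxy
          have h4 : e.symm (⟨S, hS⟩, x) = e.symm (⟨S, hS⟩, y) := congrArg Subtype.val hxy
          have h5 := e.symm.injective h4
          exact (Prod.mk.inj h5).2)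
      rw [hN] at hle
      exact absurd hle (not_le.2 hS)
    obtain ⟨x, hx⟩ := hex
    refine ⟨e.symm (⟨S, hS⟩, x), fun z => ?_⟩
    rw [Equiv.apply_symm_apply]
    constructor
    · exact fun h => h.1
    · intro h
      refine ⟨h, ?_⟩
      intro h6
      apply hx
      rw [← h6]
      exact h

/-- von Neumann numerals -/
theorem exists_nums {N : Type v} {el : N → N → Prop} {κ : Cardinal.{v}} (H : IsHered el κ)
    (hκ : ℵ₀ < κ) : ∃ (a : N) (n : ℕ → N), (∀ z, el z a ↔ ∃ i, z = n i) ∧
      ∀ i j, el (n i) (n j) ↔ i < j := by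
  classical
  have hc := H.code
  have hne : Nonempty N := by
    obtain ⟨c, _⟩ := H.code ∅ (by
      rw [Cardinal.mk_emptyCollection]
      exact Cardinal.aleph0_pos.trans hκ)
    exact ⟨c⟩
  choose! code hcode using hc
  let S : ℕ → Set N := fun i => Nat.rec ∅ (fun _ s => insert (code s) s) i
  have hS1 : ∀ i, S (i + 1) = insert (code (S i)) (S i) := fun i => rfl
  have hfin : ∀ i, (S i).Finite := by
    intro i
    induction i with
    | zero => exact Set.finite_empty
    | succ i ih => rw [hS1]; exact ih.insert _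
  have hmem : ∀ i z, z ∈ S i ↔ ∃ j < i, z = code (S j) := by
    intro i
    induction i with
    | zero =>
      intro z
      constructor
      · intro h
        exact absurd h (Set.notMem_empty z)
      · rintro ⟨j, hj, _⟩
        omega
    | succ i ih =>
      intro z
      rw [hS1, Set.mem_insert_iff, ih]
      constructor
      · rintro (h | ⟨j, hj, h⟩)
        · exact ⟨i, by omega, h⟩
        · exact ⟨j, by omega, h⟩
      · rintro ⟨j, hj, h⟩
        rcases Nat.lt_succ_iff_lt_or_eq.1 hj with h' | h'
        · exact Or.inr ⟨j, h', h⟩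
        · subst h'
          exact Or.inl h
  have hel : ∀ i z, el z (code (S i)) ↔ ∃ j < i, z = code (S j) := by
    intro i z
    rw [hcode (S i) ((Cardinal.lt_aleph0_iff_set_finite.2 (hfin i)).trans hκ), hmem]
  have hinj : ∀ i j, code (S i) = code (S j) → i = j := by
    have aux : ∀ i j, i < j → code (S i) ≠ code (S j) := by
      intro i j hij h
      have h1 : el (code (S i)) (code (S j)) := (hel j _).2 ⟨i, hij, rfl⟩
      rw [h] at h1
      exact H.irrefl _ h1
    intro i j h
    rcases lt_trichotomy i j with h1 | h1 | h1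
    · exact absurd h (aux i j h1)
    · exact h1
    · exact absurd h.symm (aux j i h1)
  refine ⟨code (Set.range fun i => code (S i)), fun i => code (S i), ?_, ?_⟩
  · intro z
    rw [hcode _ ((Set.countable_range _).le_aleph0.trans_lt hκ)]
    constructor
    · rintro ⟨i, hi⟩
      exact ⟨i, hi.symm⟩
    · rintro ⟨i, hi⟩
      exact ⟨i, hi.symm⟩
  · intro i j
    rw [hel]
    constructor
    · rintro ⟨k, hk, h⟩
      have := hinj i k h
      omega
    · intro h
      exact ⟨i, h, rfl⟩

end Pool.Agent.Y639.Inq
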