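import Pool.Agent.Y639.Inq.FormulaV
import Pool.Agent.Y639.Inq.Hered

set_option autoImplicit false

namespace Pool.Agent.Y639.Inq

open Pool.Agent.Results.MP_130315_lc.UncountableDomain
open Cardinal

universe a b v

/-- The relation `R` of the countermodel at the world `((x, y), b)`. -/
def relV {N : Type v} (el : N → N → Prop) (w : (N × N) × Bool) : Option N → Option N → Prop
  | none, none => w.2 = true
  | some _, none => True
  | some x, some y => el x y ∨ (x = y ∧ w.1.1 = x)
  | none, some y => w.1.2 = y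

/-- The countermodel. -/
def cmV (σ : Sig.{a, b}) (R : σ.Pred) {N : Type v} (el : N → N → Prop) (n0 : N) :
    Model.{a, b, v, v} σ where
  W := (N × N) × Bool
  D := Option N
  nonemptyW := ⟨((n0, n0), true)⟩
  nonemptyD := ⟨none⟩
  predI w P v := P = R ∧ ∃ x y : Option N, relV el w x y ∧ (∀ i, i.val = 0 → v i = x) ∧
    (∀ i, i.val = 1 → v i = y)
  fnI _ _ _ := none
  rigid_eq _ _ _ _ := rfl
  sim _ x y := x = y
  sim_equiv _ := ⟨fun _ => rfl, fun h => h.symm, fun h h' => h.trans h'⟩
  sim_pred w P x y h := by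
    have : x = y := funext h
    rw [this]
  sim_fn _ _ _ _ _ := rfl

variable {σ : Sig.{a, b}} {N : Type v} {el : N → N → Prop} {n0 : N}

/-- a world of the countermodel -/
def wdV (σ : Sig.{a, b}) (R : σ.Pred) (el : N → N → Prop) (n0 : N) (w : (N × N) × Bool) :
    (cmV σ R el n0).W := w

/-- the world as a pair -/
def wpV {R : σ.Pred} (w : (cmV σ R el n0).W) : (N × N) × Bool := w

/-- an individual of the countermodel -/
def idV (σ : Sig.{a, b}) (R : σ.Pred) (el : N → N → Prop) (n0 : N) (x : Option N) :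
    (cmV σ R el n0).D := x

/-- an individual of the countermodel, seen as an element of `Option N` -/
def ipV {R : σ.Pred} (x : (cmV σ R el n0).D) : Option N := x

theorem cmV_sim (R : σ.Pred) (w : (cmV σ R el n0).W) (x y : (cmV σ R el n0).D) :
    (cmV σ R el n0).sim w x y ↔ ipV x = ipV y := Iff.rfl

theorem cmV_RR (R : σ.Pred) (hR : 2 ≤ σ.predAr R) (w : (cmV σ R el n0).W)
    (x y : (cmV σ R el n0).D) :
    RR (cmV σ R el n0) R w x y ↔ relV el (wpV w) (ipV x) (ipV y) := by
  constructor
  · rintro ⟨_, x', y', h, hx, hy⟩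
    have h0 : ipV x = x' := hx ⟨0, by omega⟩ rfl
    have h1 : ipV y = y' := by
      have := hy ⟨1, by omega⟩ rfl
      exact this
    rw [h0, h1]
    exact h
  · intro h
    refine ⟨rfl, x, y, h, ?_, ?_⟩
    · intro i hi
      exact if_pos hi
    · intro i hi
      exact if_neg (by omega)

theorem cmV_NM (R : σ.Pred) (hR : 2 ≤ σ.predAr R) (w : (cmV σ R el n0).W)
    (x : (cmV σ R el n0).D) :
    NM (cmV σ R el n0) R w (idV σ R el n0 none) x ↔ ∃ n, ipV x = some n := by
  unfold NM
  rw [cmV_RR R hR, cmV_sim]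
  change (¬ ipV x = none ∧ relV el (wpV w) (ipV x) none) ↔ _
  generalize ipV x = x
  constructor
  · rintro ⟨h1, h2⟩
    cases x with
    | none => exact absurd rfl h1
    | some n => exact ⟨n, rfl⟩
  · rintro ⟨n, rfl⟩
    exact ⟨by simp, trivial⟩

theorem cmV_LT (hirr : ∀ c, ¬ el c c) (R : σ.Pred) (hR : 2 ≤ σ.predAr R)
    (w : (cmV σ R el n0).W) (x y : (cmV σ R el n0).D) :
    LT' (cmV σ R el n0) R w (idV σ R el n0 none) x y ↔
      ∃ m n, ipV x = some m ∧ ipV y = some n ∧ el m n := by
  unfold LT'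
  rw [cmV_RR R hR, cmV_NM R hR, cmV_NM R hR, cmV_sim]
  generalize ipV x = x
  generalize ipV y = y
  constructor
  · rintro ⟨⟨m, rfl⟩, ⟨n, rfl⟩, hne, h⟩
    refine ⟨m, n, rfl, rfl, ?_⟩
    rcases h with h | ⟨h, _⟩
    · exact h
    · exfalso
      apply hne
      rw [h]
  · rintro ⟨m, n, rfl, rfl, h⟩
    refine ⟨⟨m, rfl⟩, ⟨n, rfl⟩, ?_, Or.inl h⟩
    intro h'
    have h3 : m = n := by simpa using h'
    rw [h3] at h
    exact hirr n h

/-- the assignment of the countermodel -/
def gV (σ : Sig.{a, b}) (R : σ.Pred) (el : N → N → Prop) (n0 : N) (c : N) :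
    ℕ → (cmV σ R el n0).D :=
  fun k => if k = 4 then idV σ R el n0 (some c) else idV σ R el n0 none

theorem relV_key (w w' : (N × N) × Bool) (x y : Option N) (hxy : x ≠ y) (hx : x ≠ none)
    (h : relV el w x y) : relV el w' x y := by
  cases x with
  | none => exact absurd rfl hx
  | some m =>
    cases y with
    | none => exact trivial
    | some n =>
      rcases h with h | h
      · exact Or.inl h
      · exact absurd (by rw [h.1]) hxy

theorem cmV_chi (R : σ.Pred) (hR : 2 ≤ σ.predAr R) (c : N) :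
    ¬ Supports (cmV σ R el n0) Set.univ (gV σ R el n0 c) (chiV R) := by
  have e0 : ∀ x y, Function.update (Function.update (gV σ R el n0 c) 1 x) 2 y 0 =
      idV σ R el n0 none := by
    intro x y
    simp [Function.update, gV]
  have e1 : ∀ x y, Function.update (Function.update (gV σ R el n0 c) 1 x) 2 y 1 = x := by
    intro x y
    simp [Function.update]
  rintro (⟨x, y, hxy, h⟩ | ⟨x, y, hxy, h⟩)
  · obtain ⟨hx, hy⟩ := hxy
    rw [supports_nm] at hx hy
    have hx' := hx (wdV σ R el n0 ((n0, n0), true)) (Set.mem_univ _)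
    have hy' := hy (wdV σ R el n0 ((n0, n0), true)) (Set.mem_univ _)
    rw [e0, e1] at hx'
    rw [e0, Function.update_self] at hy'
    obtain ⟨m, hm⟩ := (cmV_NM R hR _ x).1 hx'
    obtain ⟨n, hn⟩ := (cmV_NM R hR _ y).1 hy'
    have h1 := h {wdV σ R el n0 ((m, n), false)} (Set.subset_univ _) (by
      refine ⟨?_, ?_⟩
      · rw [supports_rr, e1]
        intro w hw
        rw [single_mem hw, cmV_RR R hR, hm]
        exact Or.inr ⟨rfl, rfl⟩
      · rw [supports_rr, e0, Function.update_self]
        intro w hw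
        rw [single_mem hw, cmV_RR R hR, hn]
        exact rfl)
    rw [supports_rr, e0] at h1
    have h2 := (cmV_RR R hR _ _ _).1 (h1 _ rfl)
    exact Bool.noConfusion h2
  · obtain ⟨hx, hy⟩ := hxy
    rw [supports_nm] at hx hy
    have hx' := hx (wdV σ R el n0 ((n0, n0), true)) (Set.mem_univ _)
    have hy' := hy (wdV σ R el n0 ((n0, n0), true)) (Set.mem_univ _)
    rw [e0, e1] at hx'
    rw [e0, Function.update_self] at hy'
    obtain ⟨m, hm⟩ := (cmV_NM R hR _ x).1 hx'
    obtain ⟨n, hn⟩ := (cmV_NM R hR _ y).1 hy'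
    have h1 := h {wdV σ R el n0 ((m, n), true)} (Set.subset_univ _) (by
      refine ⟨?_, ?_⟩
      · rw [supports_rr, e1]
        intro w hw
        rw [single_mem hw, cmV_RR R hR, hm]
        exact Or.inr ⟨rfl, rfl⟩
      · rw [supports_rr, e0, Function.update_self]
        intro w hw
        rw [single_mem hw, cmV_RR R hR, hn]
        exact rfl)
    rw [supports_neg] at h1
    apply h1 _ rfl
    rw [supports_rr, e0]
    intro w hw
    rw [single_mem hw, cmV_RR R hR]
    exact rfl

end Pool.Agent.Y639.Inq
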