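import Pool.Agent.Y639.Inq.CmV

set_option autoImplicit false

namespace Pool.Agent.Y639.Inq

open Pool.Agent.Results.MP_130315_lc.UncountableDomain
open Cardinal

universe a b v

variable {σ : Sig.{a, b}} {N : Type v} {el : N → N → Prop} {n0 : N} {κ : Cardinal.{v}}

theorem cmV_code (H : IsHered el κ) (hκ : κ.IsInaccessible) (R : σ.Pred)
    (hR : 2 ≤ σ.predAr R) (c : N) (x : (cmV σ R el n0).D) (s : Set (cmV σ R el n0).W)
    (hx : Supports (cmV σ R el n0) s (Function.update (gV σ R el n0 c) 3 x) (nm R 3)) :
    Supports (cmV σ R el n0) s (Function.update (gV σ R el n0 c) 3 x)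
      (.iex 5 (.and (nm R 5) (.imp (alp R) (bet R)))) := by
  classical
  by_cases hs : s = ∅
  · rw [hs]
    exact supports_empty _ _ _
  obtain ⟨w0, hw0⟩ := Set.nonempty_iff_ne_empty.mpr hs
  rw [supports_nm] at hx
  have hx0 := hx w0 hw0
  have e0 : Function.update (gV σ R el n0 c) 3 x 0 = idV σ R el n0 none := by
    simp [Function.update, gV]
  rw [e0, Function.update_self] at hx0
  obtain ⟨X, hX⟩ := (cmV_NM R hR _ x).1 hx0
  have hsub : ∀ A : Set N, A ⊆ {z | el z X} → #A < κ := fun A hA =>
    (Cardinal.mk_le_mk_of_subset hA).trans_lt (H.small X)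
  have hc : ∀ A : Set N, A ⊆ {z | el z X} → ∃ cA, ∀ z, el z cA ↔ z ∈ A := fun A hA =>
    H.code A (hsub A hA)
  have : Nonempty N := ⟨n0⟩
  choose! code hcode using hc
  have hY : #(code '' (𝒫 {z | el z X})) < κ := by
    refine Cardinal.mk_image_le.trans_lt ?_
    rw [Cardinal.mk_powerset]
    exact hκ.isStrongPrelimit (H.small X)
  obtain ⟨Y, hYc⟩ := H.code _ hY
  refine ⟨idV σ R el n0 (some Y), ?_, ?_⟩
  · rw [supports_nm]
    intro w _
    have e0 : Function.update (Function.update (gV σ R el n0 c) 3 x) 5
        (idV σ R el n0 (some Y)) 0 = idV σ R el n0 none := by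
      simp [Function.update, gV]
    rw [e0, Function.update_self]
    exact (cmV_NM R hR _ _).2 ⟨_, rfl⟩
  · intro u _ hα
    let A : Set N := {z | el z X ∧ ∃ y, wdV σ R el n0 ((z, y), true) ∈ u}
    have hA : A ⊆ {z | el z X} := fun z hz => hz.1
    have hAY : el (code A) Y := (hYc _).2 ⟨A, hA, rfl⟩
    refine ⟨idV σ R el n0 (some (code A)), ?_, ?_⟩
    · rw [supports_lt]
      intro w _
      have key : LT' (cmV σ R el n0) R w (idV σ R el n0 none)
          (idV σ R el n0 (some (code A))) (idV σ R el n0 (some Y)) :=
        (cmV_LT H.irrefl R hR _ _ _).2 ⟨_, _, rfl, rfl, hAY⟩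
      simpa [Function.update, gV] using key
    · intro y v hv hlt v' hv' hRy
      rw [supports_lt] at hlt
      rw [supports_rr] at hRy
      have hlt' : ∀ w ∈ v, LT' (cmV σ R el n0) R w (idV σ R el n0 none) y x := by
        intro w hw
        simpa [Function.update, gV] using hlt w hw
      have hRy' : ∀ w ∈ v', RR (cmV σ R el n0) R w y y := by
        intro w hw
        simpa [Function.update, gV] using hRy w hw
      have h4 : ∀ (d1 d2 d3 : (cmV σ R el n0).D), Function.update (Function.update
          (Function.update (gV σ R el n0 c) 3 d1) 5 d2) 2 d3 0 = idV σ R el n0 none := by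
        intro d1 d2 d3
        simp [Function.update, gV]
      have key : ∀ w ∈ v', ∃ z : N, ipV y = some z ∧ (z ∈ A ↔ (wpV w).2 = true) := by
        intro w hw
        obtain ⟨z, X', hz, hX', hel⟩ := (cmV_LT H.irrefl R hR w _ _).1 (hlt' w (hv' hw))
        rw [hX] at hX'
        have hXX : X = X' := by simpa using hX'
        rw [← hXX] at hel
        have h2 := (cmV_RR R hR _ _ _).1 (hRy' w hw)
        rw [hz] at h2
        have hwn : (wpV w).1.1 = z := by
          rcases h2 with h | h
          · exact absurd h (H.irrefl z)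
          · exact h.2
        refine ⟨z, hz, ?_⟩
        have hwu : w ∈ u := hv (hv' hw)
        constructor
        · rintro ⟨_, y', hnu⟩
          have hsub : ({wdV σ R el n0 ((z, y'), true), w} : Set (cmV σ R el n0).W) ⊆ u := by
            intro x hx
            rcases hx with hx | hx
            · rw [hx]; exact hnu
            · rw [single_mem hx]; exact hwu
          have hh := hα (idV σ R el n0 (some z)) {wdV σ R el n0 ((z, y'), true), w} hsub (by
            rw [supports_lt]
            intro w' _
            have : LT' (cmV σ R el n0) R w' (idV σ R el n0 none)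
                (idV σ R el n0 (some z)) x :=
              (cmV_LT H.irrefl R hR w' _ _).2 ⟨_, _, rfl, hX, hel⟩
            simpa [Function.update, gV] using this) {wdV σ R el n0 ((z, y'), true), w}
              (Set.Subset.refl _) (by
            rw [supports_rr, Function.update_self]
            intro w' hw'
            rw [cmV_RR R hR]
            refine Or.inr ⟨rfl, ?_⟩
            rcases hw' with hw' | hw'
            · rw [hw']; rfl
            · rw [single_mem hw']; exact hwn)
          rw [supports_whether] at hh
          rcases hh with hh | hh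
          · rw [supports_rr] at hh
            have h3 := (cmV_RR R hR _ _ _).1 (hh w (Or.inr rfl))
            rw [h4] at h3
            exact h3
          · exfalso
            apply hh (wdV σ R el n0 ((z, y'), true)) (Or.inl rfl)
            rw [supports_rr]
            intro w' hw'
            rw [single_mem hw', cmV_RR R hR]
            rw [h4]
            exact rfl
        · intro hw2
          refine ⟨hel, (wpV w).1.2, ?_⟩
          have : w = wdV σ R el n0 ((z, (wpV w).1.2), true) :=
            Prod.ext (Prod.ext hwn rfl) hw2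
          rw [← this]
          exact hwu
      have e0 : ∀ (d1 d2 d3 d4 : (cmV σ R el n0).D), Function.update (Function.update
          (Function.update (Function.update (gV σ R el n0 c) 3 d1) 5 d2) 1 d3) 2 d4 0 =
            idV σ R el n0 none := by
        intro d1 d2 d3 d4
        simp [Function.update, gV]
      have e1 : ∀ (d1 d2 d3 d4 : (cmV σ R el n0).D), Function.update (Function.update
          (Function.update (Function.update (gV σ R el n0 c) 3 d1) 5 d2) 1 d3) 2 d4 1 = d3 := by
        intro d1 d2 d3 d4
        simp [Function.update]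
      refine ⟨?_, ?_⟩
      · intro v2 hv2 h1
        rw [supports_lt, e0, e1, Function.update_self] at h1
        rw [supports_rr, e0]
        intro w hw
        obtain ⟨z, hz, hiff⟩ := key w (hv2 hw)
        obtain ⟨m, n, hm, hn, hel⟩ := (cmV_LT H.irrefl R hR w _ _).1 (h1 w hw)
        rw [hz] at hm
        have hm' : z = m := by simpa using hm
        have hn' : code A = n := Option.some.inj hn
        rw [← hm', ← hn'] at hel
        have hmem := (hcode A hA z).1 hel
        rw [cmV_RR R hR]
        exact hiff.1 hmem
      · intro v2 hv2 h1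
        rw [supports_rr, e0] at h1
        rw [supports_lt, e0, e1, Function.update_self]
        intro w hw
        obtain ⟨z, hz, hiff⟩ := key w (hv2 hw)
        have h := (cmV_RR R hR _ _ _).1 (h1 w hw)
        exact (cmV_LT H.irrefl R hR w _ _).2 ⟨_, _, hz, rfl, (hcode A hA z).2 (hiff.2 h)⟩

theorem cmV_coll (H : IsHered el κ) (hκ : κ.IsInaccessible) (R : σ.Pred)
    (hR : 2 ≤ σ.predAr R) (c : N) (x : (cmV σ R el n0).D) (s : Set (cmV σ R el n0).W)
    (hx : Supports (cmV σ R el n0) s (Function.update (gV σ R el n0 c) 3 x) (nm R 3))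
    (hfun : Supports (cmV σ R el n0) s (Function.update (gV σ R el n0 c) 3 x) (funF R)) :
    Supports (cmV σ R el n0) s (Function.update (gV σ R el n0 c) 3 x)
      (.iex 5 (.and (nm R 5) (covF R))) := by
  classical
  by_cases hs : s = ∅
  · rw [hs]
    exact supports_empty _ _ _
  obtain ⟨w0, hw0⟩ := Set.nonempty_iff_ne_empty.mpr hs
  rw [supports_nm] at hx
  have hx0 := hx w0 hw0
  have e0 : Function.update (gV σ R el n0 c) 3 x 0 = idV σ R el n0 none := by
    simp [Function.update, gV]
  rw [e0, Function.update_self] at hx0
  obtain ⟨X, hX⟩ := (cmV_NM R hR _ x).1 hx0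
  -- the function
  have hF : ∀ z : N, ∃ y : N, el z X → ∀ w ∈ s, (wpV w).1.1 = z → (wpV w).1.2 = y := by
    intro z
    by_cases hz : el z X
    · by_cases hex : ∃ w ∈ s, (wpV w).1.1 = z
      · obtain ⟨w1, hw1, hwz⟩ := hex
        have hh := hfun (idV σ R el n0 (some z)) {w | w ∈ s ∧ (wpV w).1.1 = z}
          (fun w hw => hw.1) (by
          rw [supports_lt]
          intro w' _
          have : LT' (cmV σ R el n0) R w' (idV σ R el n0 none)
              (idV σ R el n0 (some z)) x :=
            (cmV_LT H.irrefl R hR w' _ _).2 ⟨_, _, rfl, hX, hz⟩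
          simpa [Function.update, gV] using this) {w | w ∈ s ∧ (wpV w).1.1 = z}
          (Set.Subset.refl _) (by
          rw [supports_rr, Function.update_self]
          intro w' hw'
          rw [cmV_RR R hR]
          exact Or.inr ⟨rfl, hw'.2⟩)
        obtain ⟨y, hy1, hy2⟩ := hh
        rw [supports_nm] at hy1
        rw [supports_rr] at hy2
        have f0 : ∀ d1 d2 d3 : (cmV σ R el n0).D, Function.update (Function.update
            (Function.update (gV σ R el n0 c) 3 d1) 1 d2) 2 d3 0 = idV σ R el n0 none := by
          intro d1 d2 d3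
          simp [Function.update, gV]
        have hy3 := hy1 w1 ⟨hw1, hwz⟩
        rw [f0, Function.update_self] at hy3
        obtain ⟨y', hy'⟩ := (cmV_NM R hR _ y).1 hy3
        refine ⟨y', fun _ w hw hwz' => ?_⟩
        have hy4 := hy2 w ⟨hw, hwz'⟩
        rw [f0, Function.update_self] at hy4
        have hy5 := (cmV_RR R hR _ _ _).1 hy4
        rw [hy'] at hy5
        exact hy5
      · push Not at hex
        exact ⟨z, fun _ w hw hwz => absurd hwz (hex w hw)⟩
    · exact ⟨z, fun h => absurd h hz⟩
  choose F hF using hF
  have hcard : #(⋃ z : {z | el z X}, {s | el s (F z.1)}) < κ :=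
    (Cardinal.card_iUnion_lt_iff_forall_of_isRegular hκ.isRegular (H.small X)).2
      (fun z => H.small _)
  obtain ⟨Y, hY⟩ := H.code _ hcard
  refine ⟨idV σ R el n0 (some Y), ?_, ?_⟩
  · rw [supports_nm]
    intro w _
    have e0 : Function.update (Function.update (gV σ R el n0 c) 3 x) 5
        (idV σ R el n0 (some Y)) 0 = idV σ R el n0 none := by
      simp [Function.update, gV]
    rw [e0, Function.update_self]
    exact (cmV_NM R hR _ _).2 ⟨_, rfl⟩
  · intro z y v hv hpre r v' hv' hlt
    obtain ⟨h1, h2, h3, h4⟩ := hpre
    rw [supports_lt] at h1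
    rw [supports_nm] at h2
    rw [supports_rr] at h3 h4
    rw [supports_lt] at hlt ⊢
    intro w hw
    have k1 : LT' (cmV σ R el n0) R w (idV σ R el n0 none) z x := by
      simpa [Function.update, gV] using h1 w (hv' hw)
    have k3 : RR (cmV σ R el n0) R w z z := by
      simpa [Function.update, gV] using h3 w (hv' hw)
    have k4 : RR (cmV σ R el n0) R w (idV σ R el n0 none) y := by
      simpa [Function.update, gV] using h4 w (hv' hw)
    have k5 : LT' (cmV σ R el n0) R w (idV σ R el n0 none) r y := by
      simpa [Function.update, gV] using hlt w hw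
    obtain ⟨z', X', hz', hX', hzX⟩ := (cmV_LT H.irrefl R hR w _ _).1 k1
    rw [hX] at hX'
    have hXX : X = X' := by simpa using hX'
    rw [← hXX] at hzX
    obtain ⟨r', y', hr', hy', hry⟩ := (cmV_LT H.irrefl R hR w _ _).1 k5
    have k3' := (cmV_RR R hR _ _ _).1 k3
    rw [hz'] at k3'
    have hwz : (wpV w).1.1 = z' := by
      rcases k3' with h | h
      · exact absurd h (H.irrefl z')
      · exact h.2
    have k4' := (cmV_RR R hR _ _ _).1 k4
    rw [hy'] at k4'
    have hwy : (wpV w).1.2 = y' := k4'
    have hFz := hF z' hzX w (hv (hv' hw)) hwz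
    rw [hwy] at hFz
    have hrY : el r' Y := by
      rw [hY]
      refine Set.mem_iUnion.2 ⟨⟨z', hzX⟩, ?_⟩
      change el r' (F z')
      rw [← hFz]
      exact hry
    have key : LT' (cmV σ R el n0) R w (idV σ R el n0 none) r (idV σ R el n0 (some Y)) :=
      (cmV_LT H.irrefl R hR _ _ _).2 ⟨_, _, hr', rfl, hrY⟩
    simpa [Function.update, gV] using key

end Pool.Agent.Y639.Inq
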