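import Pool.Agent.Results.MP_130315_lc.UncountableDomain

set_option autoImplicit false

namespace Pool.Agent.Y639.Inq

open Pool.Agent.Results.MP_130315_lc.UncountableDomain

universe a b u v

variable {σ : Sig.{a, b}}

/-- the iterated power set of the natural numbers -/
def Tn : ℕ → Type
  | 0 => ℕ
  | n + 1 => Set (Tn n)

instance : ∀ n, Nonempty (Tn n)
  | 0 => ⟨(0 : ℕ)⟩
  | n + 1 => ⟨(∅ : Set (Tn n))⟩

/-- the state decides `R(x_0,x_0)` on the worlds marked by any given element of `x_3` -/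
def alp (R : σ.Pred) : Fml σ :=
  .all 2 (.imp (lt R 2 3) (.imp (rr R 2 2) (whether (rr R 0 0))))

/-- some element of `x_5` codes the set of the elements of `x_3` whose mark goes with
`R(x_0,x_0)` -/
def bet (R : σ.Pred) : Fml σ :=
  .iex 1 (.and (lt R 1 5) (.all 2 (.imp (lt R 2 3) (.imp (rr R 2 2)
    (.and (.imp (lt R 2 1) (rr R 0 0)) (.imp (rr R 0 0) (lt R 2 1)))))))

/-- the premise -/
def thet (R : σ.Pred) : Fml σ :=
  .and (.all 1 (.all 2 (whether (ee 1 2))))
  (.and (.all 1 (.all 2 (.imp (neg (ee 1 2)) (whether (rr R 1 2)))))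
  (.and (cex 1 (lt R 1 4))
  (.and (.all 1 (.imp (lt R 1 4) (cex 2 (.and (lt R 2 4) (lt R 1 2)))))
  (.and (.all 1 (.all 2 (.all 3 (.imp (.and (.and (lt R 1 4) (.and (lt R 2 4) (lt R 3 4)))
    (.and (lt R 1 2) (lt R 2 3))) (lt R 1 3)))))
  (.and (.all 1 (.all 2 (.imp (.and (.and (nm R 1) (nm R 2)) (.and (rr R 1 1) (rr R 2 2)))
    (ee 1 2))))
  (.all 3 (.imp (nm R 3) (.iex 5 (.and (nm R 5) (.imp (alp R) (bet R)))))))))))

/-- the formula -/
def phi' (R : σ.Pred) : Fml σ := .imp (thet R) (chi R)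

variable (M : Model.{a, b, u, v} σ)

theorem RR_congr (R : σ.Pred) {w : M.W} {x x' y y' : M.D} (hx : M.sim w x x')
    (hy : M.sim w y y') : RR M R w x y ↔ RR M R w x' y' :=
  M.sim_pred w R (fun k => if k.val = 0 then x else y) (fun k => if k.val = 0 then x' else y')
    (by
      intro k
      split_ifs
      · exact hx
      · exact hy)

theorem NM_congr (R : σ.Pred) {w : M.W} {q x x' : M.D} (hx : M.sim w x x') :
    NM M R w q x ↔ NM M R w q x' := by
  unfold NM
  rw [RR_congr M R hx ((M.sim_equiv w).refl q)]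
  have : M.sim w x q ↔ M.sim w x' q :=
    ⟨fun h => (M.sim_equiv w).trans ((M.sim_equiv w).symm hx) h,
      fun h => (M.sim_equiv w).trans hx h⟩
  rw [this]

theorem LT_congr (R : σ.Pred) {w : M.W} {q z c c' : M.D} (hc : M.sim w c c') :
    LT' M R w q z c ↔ LT' M R w q z c' := by
  unfold LT'
  rw [RR_congr M R ((M.sim_equiv w).refl z) hc, NM_congr M R hc]
  have : M.sim w z c ↔ M.sim w z c' :=
    ⟨fun h => (M.sim_equiv w).trans h hc,
      fun h => (M.sim_equiv w).trans h ((M.sim_equiv w).symm hc)⟩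
  rw [this]

end Pool.Agent.Y639.Inq
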