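import Pool.Agent.Y639.Inq.Formula

set_option autoImplicit false

namespace Pool.Agent.Y639.Inq

open Pool.Agent.Results.MP_130315_lc.UncountableDomain

universe a b u v

variable {σ : Sig.{a, b}}

/-- the second mark is a function of the first mark, on the elements of `x_3` -/
def funF (R : σ.Pred) : Fml σ :=
  .all 1 (.imp (lt R 1 3) (.imp (rr R 1 1) (.iex 2 (.and (nm R 2) (rr R 0 2)))))

/-- `x_5` contains the elements of all values of this function -/
def covF (R : σ.Pred) : Fml σ :=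
  .all 1 (.all 2 (.imp (.and (lt R 1 3) (.and (nm R 2) (.and (rr R 1 1) (rr R 0 2))))
    (.all 6 (.imp (lt R 6 2) (lt R 6 5)))))

/-- the premise -/
def thetV (R : σ.Pred) : Fml σ :=
  .and (.all 1 (.all 2 (whether (ee 1 2))))
  (.and (.all 1 (.all 2 (.imp (.and (neg (ee 1 2)) (neg (ee 1 0))) (whether (rr R 1 2)))))
  (.and (cex 1 (lt R 1 4))
  (.and (.all 1 (.imp (lt R 1 4) (cex 2 (.and (lt R 2 4) (lt R 1 2)))))
  (.and (.all 1 (.all 2 (.all 3 (.imp (.and (.and (lt R 1 4) (.and (lt R 2 4) (lt R 3 4)))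
    (.and (lt R 1 2) (lt R 2 3))) (lt R 1 3)))))
  (.and (.all 1 (.all 2 (.imp (.and (.and (nm R 1) (nm R 2)) (.and (rr R 1 1) (rr R 2 2)))
    (ee 1 2))))
  (.and (.all 1 (.all 2 (.imp (.and (.and (nm R 1) (nm R 2)) (.and (rr R 0 1) (rr R 0 2)))
    (ee 1 2))))
  (.and (.all 3 (.imp (nm R 3) (.iex 5 (.and (nm R 5) (.imp (alp R) (bet R))))))
  (.all 3 (.imp (nm R 3) (.imp (funF R) (.iex 5 (.and (nm R 5) (covF R)))))))))))))

/-- the conclusion -/
def chiV (R : σ.Pred) : Fml σ :=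
  .ior (.iex 1 (.iex 2 (.and (.and (nm R 1) (nm R 2)) (.imp (.and (rr R 1 1) (rr R 0 2))
      (rr R 0 0)))))
    (.iex 1 (.iex 2 (.and (.and (nm R 1) (nm R 2)) (.imp (.and (rr R 1 1) (rr R 0 2))
      (neg (rr R 0 0))))))

/-- the formula -/
def phiV (R : σ.Pred) : Fml σ := .imp (thetV R) (chiV R)

end Pool.Agent.Y639.Inq
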