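import Pool.Agent.Y639.Inq.CmTheta
import Pool.Agent.Y639.Inq.Big

set_option autoImplicit false

namespace Pool.Agent.Y639.Inq

open Pool.Agent.Results.MP_130315_lc.UncountableDomain

universe a b u v

variable {σ : Sig.{a, b}}

theorem cmT_thet (R : σ.Pred) (hR : 2 ≤ σ.predAr R) :
    Supports (cmT σ R) Set.univ (gT σ R) (thet R) := by
  have g4 : ∀ (x y z : (cmT σ R).D),
      Function.update (Function.update (Function.update (gT σ R) 1 x) 2 y) 3 z 4 =
        idT σ R (some ⟨1, (Set.univ : Set ℕ)⟩) := by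
    intro x y z
    simp [Function.update, gT]
  have g24 : ∀ (x y : (cmT σ R).D),
      Function.update (Function.update (gT σ R) 1 x) 2 y 4 =
        idT σ R (some ⟨1, (Set.univ : Set ℕ)⟩) := by
    intro x y
    simp [Function.update, gT]
  have g14 : ∀ (x : (cmT σ R).D),
      Function.update (gT σ R) 1 x 4 = idT σ R (some ⟨1, (Set.univ : Set ℕ)⟩) := by
    intro x
    simp [Function.update, gT]
  have g30 : ∀ (x y z : (cmT σ R).D),
      Function.update (Function.update (Function.update (gT σ R) 1 x) 2 y) 3 z 0 =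
        idT σ R none := by
    intro x y z
    simp [Function.update, gT]
  have g31 : ∀ (x y z : (cmT σ R).D),
      Function.update (Function.update (Function.update (gT σ R) 1 x) 2 y) 3 z 1 = x := by
    intro x y z
    simp [Function.update]
  have g32 : ∀ (x y z : (cmT σ R).D),
      Function.update (Function.update (Function.update (gT σ R) 1 x) 2 y) 3 z 2 = y := by
    intro x y z
    simp [Function.update]
  have g33 : ∀ (x y z : (cmT σ R).D),
      Function.update (Function.update (Function.update (gT σ R) 1 x) 2 y) 3 z 3 = z := by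
    intro x y z
    simp
  have g20 : ∀ (x y : (cmT σ R).D),
      Function.update (Function.update (gT σ R) 1 x) 2 y 0 = idT σ R none := by
    intro x y
    simp [Function.update, gT]
  have g21 : ∀ (x y : (cmT σ R).D),
      Function.update (Function.update (gT σ R) 1 x) 2 y 1 = x := by
    intro x y
    simp [Function.update]
  have g22 : ∀ (x y : (cmT σ R).D),
      Function.update (Function.update (gT σ R) 1 x) 2 y 2 = y := by
    intro x y
    simp
  have g10 : ∀ (x : (cmT σ R).D), Function.update (gT σ R) 1 x 0 = idT σ R none := by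
    intro x
    simp [Function.update, gT]
  have g11 : ∀ (x : (cmT σ R).D), Function.update (gT σ R) 1 x 1 = x := by
    intro x
    simp
  refine ⟨?_, ?_, ?_, ?_, ?_, ?_, ?_⟩
  · intro x y
    rw [supports_whether, supports_ee, g21, g22]
    by_cases hxy : ipT x = ipT y
    · left
      intro w _
      rw [cmT_sim]
      exact hxy
    · right
      intro w _ hs
      rw [supports_ee, g21, g22] at hs
      exact hxy ((cmT_sim R w x y).1 (hs w rfl))
  · intro x y u hu hne
    rw [supports_whether, supports_rr, g21, g22]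
    by_cases hemp : u = ∅
    · left
      intro w hw
      rw [hemp] at hw
      exact absurd hw (Set.notMem_empty w)
    obtain ⟨w0, hw0⟩ := Set.nonempty_iff_ne_empty.mpr hemp
    have hxy : ipT x ≠ ipT y := by
      intro h
      rw [supports_neg] at hne
      apply hne w0 hw0
      rw [supports_ee, g21, g22]
      intro w _
      rw [cmT_sim]
      exact h
    by_cases hr : relT (wpT w0) (ipT x) (ipT y)
    · left
      intro w _
      rw [cmT_RR R hR]
      exact relT_key _ _ _ _ hxy hr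
    · right
      intro w _ hs
      rw [supports_rr, g21, g22] at hs
      have := (cmT_RR R hR _ _ _).1 (hs w rfl)
      exact hr (relT_key _ _ _ _ hxy this)
  · rw [supports_cex]
    intro w _
    refine ⟨idT σ R (some ⟨0, (0 : ℕ)⟩), ?_⟩
    rw [supports_lt, g10, g11, g14]
    intro w' _
    rw [cmT_LT R hR]
    exact ⟨_, _, rfl, rfl, (el_univ1 _).2 ⟨0, rfl⟩⟩
  · intro x u hu hx
    rw [supports_cex]
    intro w hw
    rw [supports_lt, g10, g11, g14] at hx
    obtain ⟨m, n, hm, hn, hel⟩ := (cmT_LT R hR w x _).1 (hx w hw)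
    have hn' : (⟨1, (Set.univ : Set ℕ)⟩ : Nm) = n := Option.some.inj hn
    rw [← hn'] at hel
    obtain ⟨i, rfl⟩ := (el_univ1 m).1 hel
    refine ⟨idT σ R (some ⟨0, (i + 1 : ℕ)⟩), ?_, ?_⟩
    · rw [supports_lt, g20, g22, g24]
      intro w' _
      rw [cmT_LT R hR]
      exact ⟨_, _, rfl, rfl, (el_univ1 _).2 ⟨i + 1, rfl⟩⟩
    · rw [supports_lt, g20, g21, g22]
      intro w' _
      rw [cmT_LT R hR]
      exact ⟨_, _, hm, rfl, (el_nat i (i + 1)).2 (Nat.lt_succ_self i)⟩
  · intro x y z u hu hpre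
    obtain ⟨⟨h1, h2, h3⟩, h4, h5⟩ := hpre
    rw [supports_lt, g30, g31, g4] at h1
    rw [supports_lt, g30, g32, g4] at h2
    rw [supports_lt, g30, g33, g4] at h3
    rw [supports_lt, g30, g31, g32] at h4
    rw [supports_lt, g30, g32, g33] at h5
    rw [supports_lt, g30, g31, g33]
    intro w hw
    have nat : ∀ x : (cmT σ R).D, LT' (cmT σ R) R w (idT σ R none) x
        (idT σ R (some ⟨1, (Set.univ : Set ℕ)⟩)) → ∃ i : ℕ, ipT x = some ⟨0, (i : ℕ)⟩ := by
      intro x hx
      obtain ⟨m, n, hm, hn, hel⟩ := (cmT_LT R hR w x _).1 hx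
      have hn' : (⟨1, (Set.univ : Set ℕ)⟩ : Nm) = n := Option.some.inj hn
      rw [← hn'] at hel
      obtain ⟨i, rfl⟩ := (el_univ1 m).1 hel
      exact ⟨i, hm⟩
    obtain ⟨i, hi⟩ := nat x (h1 w hw)
    obtain ⟨j, hj⟩ := nat y (h2 w hw)
    obtain ⟨k, hk⟩ := nat z (h3 w hw)
    obtain ⟨m, n, hm, hn, hel⟩ := (cmT_LT R hR w _ _).1 (h4 w hw)
    obtain ⟨m', n', hm', hn', hel'⟩ := (cmT_LT R hR w _ _).1 (h5 w hw)
    have e1 : (⟨0, (i : ℕ)⟩ : Nm) = m := Option.some.inj (hi.symm.trans hm)
    have e2 : (⟨0, (j : ℕ)⟩ : Nm) = n := Option.some.inj (hj.symm.trans hn)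
    have e3 : (⟨0, (j : ℕ)⟩ : Nm) = m' := Option.some.inj (hj.symm.trans hm')
    have e4 : (⟨0, (k : ℕ)⟩ : Nm) = n' := Option.some.inj (hk.symm.trans hn')
    rw [← e1, ← e2] at hel
    rw [← e3, ← e4] at hel'
    rw [cmT_LT R hR]
    exact ⟨_, _, hi, hk, (el_nat i k).2 (((el_nat i j).1 hel).trans ((el_nat j k).1 hel'))⟩
  · intro x y u hu hpre
    obtain ⟨⟨h1, h2⟩, h3, h4⟩ := hpre
    rw [supports_nm, g20, g21] at h1
    rw [supports_nm, g20, g22] at h2
    rw [supports_rr, g21] at h3
    rw [supports_rr, g22] at h4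
    rw [supports_ee, g21, g22]
    intro w hw
    obtain ⟨m, hm⟩ := (cmT_NM R hR w x).1 (h1 w hw)
    obtain ⟨n, hn⟩ := (cmT_NM R hR w y).1 (h2 w hw)
    have h3' := (cmT_RR R hR _ _ _).1 (h3 w hw)
    have h4' := (cmT_RR R hR _ _ _).1 (h4 w hw)
    rw [hm] at h3'
    rw [hn] at h4'
    have hm' : (wpT w).1 = m := by
      rcases h3' with h | h
      · exact absurd h (el_irrefl m)
      · exact h.2
    have hn' : (wpT w).1 = n := by
      rcases h4' with h | h
      · exact absurd h (el_irrefl n)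
      · exact h.2
    rw [cmT_sim, hm, hn, ← hm', ← hn']
  · intro x s _ hx
    exact cmT_code R hR x s hx

open Cardinal

theorem mk_Nm : #Nm = ℶ_ Ordinal.omega0 := by
  apply le_antisymm
  · rw [Cardinal.mk_sigma]
    refine (Cardinal.sum_le_mk_mul_iSup _).trans ?_
    have h1 : ℵ₀ ≤ ℶ_ Ordinal.omega0 := Cardinal.aleph0_le_beth _
    have h2 : (⨆ n : ℕ, #(Tn n)) ≤ ℶ_ Ordinal.omega0 := by
      apply ciSup_le'
      intro n
      rw [mk_Tn]
      exact Cardinal.beth_le_beth.2 (Ordinal.nat_lt_omega0 n).le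
    calc #ℕ * (⨆ n : ℕ, #(Tn n)) ≤ ℶ_ Ordinal.omega0 * ℶ_ Ordinal.omega0 :=
          mul_le_mul' (by simpa using h1) h2
      _ = ℶ_ Ordinal.omega0 := Cardinal.mul_eq_self h1
  · exact beth_le fun n => ⟨fun x => ⟨n, x⟩, fun x y h => eq_of_heq (Sigma.mk.inj h).2⟩

theorem mk_W (R : σ.Pred) : #(cmT σ R).W = ℶ_ Ordinal.omega0 := by
  change #(Nm × Bool) = _
  rw [Cardinal.mk_prod, mk_Nm]
  simp only [Cardinal.lift_id, Cardinal.mk_bool]
  exact Cardinal.mul_eq_left (Cardinal.aleph0_le_beth _)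
    ((Cardinal.nat_lt_aleph0 2).le.trans (Cardinal.aleph0_le_beth _)) two_ne_zero

theorem mk_D (R : σ.Pred) : #(cmT σ R).D = ℶ_ Ordinal.omega0 := by
  change #(Option Nm) = _
  rw [Cardinal.mk_option, mk_Nm]
  exact Cardinal.add_one_eq (Cardinal.aleph0_le_beth _)

end Pool.Agent.Y639.Inq
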