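import Pool.Agent.Y639.Inq.FormulaV

set_option autoImplicit false

namespace Pool.Agent.Y639.Inq

open Pool.Agent.Results.MP_130315_lc.UncountableDomain

universe a b u v

variable {σ : Sig.{a, b}} (M : Model.{a, b, u, v} σ)

/-- the semantic content of a state `t` that supports the premise but not the conclusion -/
structure HypV (R : σ.Pred) (t : Set M.W) (q p : M.D) (w0 : M.W) : Prop where
  mem : w0 ∈ t
  e1 : ∀ x y : M.D, (∀ w ∈ t, M.sim w x y) ∨ (∀ w ∈ t, ¬ M.sim w x y)
  e2 : ∀ x y : M.D, (∀ w ∈ t, ¬ M.sim w x y) → (∀ w ∈ t, ¬ M.sim w x q) →
      (∀ w ∈ t, RR M R w x y) ∨ (∀ w ∈ t, ¬ RR M R w x y)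
  e3 : ∃ z : M.D, LT' M R w0 q z p
  e4 : ∀ x : M.D, LT' M R w0 q x p → ∃ y : M.D, LT' M R w0 q y p ∧ LT' M R w0 q x y
  e5 : ∀ x y z : M.D, LT' M R w0 q x p → LT' M R w0 q y p → LT' M R w0 q z p →
      LT' M R w0 q x y → LT' M R w0 q y z → LT' M R w0 q x z
  e6 : ∀ w ∈ t, ∀ x y : M.D, NM M R w q x → NM M R w q y → RR M R w x x → RR M R w y y →
      M.sim w x y
  e6b : ∀ w ∈ t, ∀ x y : M.D, NM M R w q x → NM M R w q y → RR M R w q x → RR M R w q y →
      M.sim w x y
  e7 : ∀ x : M.D, (∀ w ∈ t, NM M R w q x) → ∃ y : M.D, (∀ w ∈ t, NM M R w q y) ∧
      ∀ u ⊆ t, (∀ (z : M.D) (v : Set M.W), v ⊆ u → (∀ w ∈ v, LT' M R w q z x) →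
        (∀ w ∈ v, RR M R w z z) → (∀ w ∈ v, RR M R w q q) ∨ (∀ w ∈ v, ¬ RR M R w q q)) →
      ∃ c : M.D, (∀ w ∈ u, LT' M R w q c y) ∧
        ∀ (z : M.D) (w : M.W), w ∈ u → LT' M R w q z x → RR M R w z z →
          (∀ w' ∈ u, LT' M R w' q z x) → (LT' M R w q z c ↔ RR M R w q q)
  e9 : ∀ x : M.D, (∀ w ∈ t, NM M R w q x) →
      ∀ u ⊆ t, (∀ (z : M.D) (v : Set M.W), v ⊆ u → (∀ w ∈ v, LT' M R w q z x) →
        (∀ w ∈ v, RR M R w z z) → ∃ y : M.D, (∀ w ∈ v, NM M R w q y) ∧ ∀ w ∈ v, RR M R w q y) →
      ∃ Y : M.D, (∀ w ∈ u, NM M R w q Y) ∧
        ∀ (z y s : M.D), ∀ w ∈ u, LT' M R w q z x → NM M R w q y → RR M R w z z →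
          RR M R w q y → LT' M R w q s y → LT' M R w q s Y
  e8 : ∀ x y : M.D, (∀ w ∈ t, NM M R w q x) → (∀ w ∈ t, NM M R w q y) →
      (∃ w ∈ t, RR M R w x x ∧ RR M R w q y ∧ RR M R w q q) ∧
      (∃ w ∈ t, RR M R w x x ∧ RR M R w q y ∧ ¬ RR M R w q q)

theorem hypV_of_refutes (R : σ.Pred) (t : Set M.W) (g : ℕ → M.D)
    (hθ : Supports M t g (thetV R)) (hχ : ¬ Supports M t g (chiV R)) :
    ∃ w0, HypV M R t (g 0) (g 4) w0 := by
  obtain ⟨h1, h2, h3, h4, h5, h6, h6b, h7, h9⟩ := hθ
  -- the state is non-empty
  have hne : t.Nonempty := by
    by_contra hcon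
    rw [Set.not_nonempty_iff_eq_empty] at hcon
    apply hχ
    rw [hcon]
    exact supports_empty M _ g
  obtain ⟨w0, hw0⟩ := hne
  have s1 : ∀ {w w' : M.W}, w' ∈ ({w} : Set M.W) → w' = w := fun h => h
  refine ⟨w0, hw0, ?_, ?_, ?_, ?_, ?_, ?_, ?_, ?_, ?_, ?_⟩
  · intro x y
    have := (supports_whether M (ee 1 2) t _).1 (h1 x y)
    rcases this with h | h
    · left
      intro w hw
      have := (supports_ee M t _ 1 2).1 h w hw
      simpa [Function.update] using this
    · right
      intro w hw hs
      apply h w hw
      rw [supports_ee]
      intro w' hw'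
      rw [Set.mem_singleton_iff] at hw'
      subst hw'
      simpa [Function.update] using hs
  · intro x y hxy hxq
    have hpre : Supports M t (Function.update (Function.update g 1 x) 2 y)
        (.and (neg (ee 1 2)) (neg (ee 1 0))) := by
      refine ⟨?_, ?_⟩
      · rw [supports_neg]
        intro w hw hs
        rw [supports_ee] at hs
        apply hxy w hw
        simpa [Function.update] using hs w rfl
      · rw [supports_neg]
        intro w hw hs
        rw [supports_ee] at hs
        apply hxq w hw
        simpa [Function.update] using hs w rfl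
    have := (supports_whether M (rr R 1 2) t _).1 (h2 x y t (Set.Subset.refl _) hpre)
    rcases this with h | h
    · left
      intro w hw
      have := (supports_rr M R t _ 1 2).1 h w hw
      simpa [Function.update] using this
    · right
      intro w hw hs
      apply h w hw
      rw [supports_rr]
      intro w' hw'
      rw [Set.mem_singleton_iff] at hw'
      subst hw'
      simpa [Function.update] using hs
  · obtain ⟨d, hd⟩ := (supports_cex M 1 (lt R 1 4) t g).1 h3 w0 hw0
    have := (supports_lt M R {w0} _ 1 4).1 hd w0 rfl
    exact ⟨d, by simpa [Function.update] using this⟩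
  · intro x hx
    have hpre : Supports M {w0} (Function.update g 1 x) (lt R 1 4) := by
      rw [supports_lt]
      intro w hw
      rw [Set.mem_singleton_iff] at hw
      subst hw
      simpa [Function.update] using hx
    have h := h4 x {w0} (Set.singleton_subset_iff.mpr hw0) hpre
    obtain ⟨y, hy1, hy2⟩ := (supports_cex M 2 (.and (lt R 2 4) (lt R 1 2)) {w0} _).1 h w0 rfl
    have hy1' := (supports_lt M R {w0} _ 2 4).1 hy1 w0 rfl
    have hy2' := (supports_lt M R {w0} _ 1 2).1 hy2 w0 rfl
    exact ⟨y, by simpa [Function.update] using hy1', by simpa [Function.update] using hy2'⟩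
  · intro x y z hx hy hz hxy hyz
    have h := h5 x y z {w0} (Set.singleton_subset_iff.mpr hw0)
    have hpre : Supports M {w0}
        (Function.update (Function.update (Function.update g 1 x) 2 y) 3 z)
        (.and (.and (lt R 1 4) (.and (lt R 2 4) (lt R 3 4)))
          (.and (lt R 1 2) (lt R 2 3))) := by
      refine ⟨⟨?_, ?_, ?_⟩, ?_, ?_⟩ <;>
      · rw [supports_lt]
        intro w hw
        rw [Set.mem_singleton_iff] at hw
        subst hw
        simpa [Function.update]
    have := (supports_lt M R {w0} _ 1 3).1 (h hpre) w0 rfl
    simpa [Function.update] using this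
  · intro w hw x y hx hy hxx hyy
    have h := h6 x y {w} (Set.singleton_subset_iff.mpr hw)
    have hpre : Supports M {w} (Function.update (Function.update g 1 x) 2 y)
        (.and (.and (nm R 1) (nm R 2)) (.and (rr R 1 1) (rr R 2 2))) := by
      refine ⟨⟨?_, ?_⟩, ?_, ?_⟩
      · rw [supports_nm]
        intro w' hw'
        rw [Set.mem_singleton_iff] at hw'
        subst hw'
        simpa [Function.update] using hx
      · rw [supports_nm]
        intro w' hw'
        rw [Set.mem_singleton_iff] at hw'
        subst hw'
        simpa [Function.update] using hy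
      · rw [supports_rr]
        intro w' hw'
        rw [Set.mem_singleton_iff] at hw'
        subst hw'
        simpa [Function.update] using hxx
      · rw [supports_rr]
        intro w' hw'
        rw [Set.mem_singleton_iff] at hw'
        subst hw'
        simpa [Function.update] using hyy
    have := (supports_ee M {w} _ 1 2).1 (h hpre) w rfl
    simpa [Function.update] using this
  · intro w hw x y hx hy hxx hyy
    have h := h6b x y {w} (Set.singleton_subset_iff.mpr hw)
    have hpre : Supports M {w} (Function.update (Function.update g 1 x) 2 y)
        (.and (.and (nm R 1) (nm R 2)) (.and (rr R 0 1) (rr R 0 2))) := by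
      refine ⟨⟨?_, ?_⟩, ?_, ?_⟩
      · rw [supports_nm]
        intro w' hw'
        rw [Set.mem_singleton_iff] at hw'
        subst hw'
        simpa [Function.update] using hx
      · rw [supports_nm]
        intro w' hw'
        rw [Set.mem_singleton_iff] at hw'
        subst hw'
        simpa [Function.update] using hy
      · rw [supports_rr]
        intro w' hw'
        rw [Set.mem_singleton_iff] at hw'
        subst hw'
        simpa [Function.update] using hxx
      · rw [supports_rr]
        intro w' hw'
        rw [Set.mem_singleton_iff] at hw'
        subst hw'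
        simpa [Function.update] using hyy
    have := (supports_ee M {w} _ 1 2).1 (h hpre) w rfl
    simpa [Function.update] using this
  · intro x hx
    have hpre : Supports M t (Function.update g 3 x) (nm R 3) := by
      rw [supports_nm]
      intro w hw
      have := hx w hw
      simpa [Function.update] using this
    obtain ⟨y, hy1, hy2⟩ := h7 x t (Set.Subset.refl _) hpre
    rw [supports_nm] at hy1
    refine ⟨y, fun w hw => by simpa [Function.update] using hy1 w hw, ?_⟩
    intro u hu hα
    have hα' : Supports M u (Function.update (Function.update g 3 x) 5 y) (alp R) := by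
      intro z v hv hz v' hv' hzz
      rw [supports_lt] at hz
      rw [supports_rr] at hzz
      have k := hα z v' (hv'.trans hv)
        (fun w hw => by simpa [Function.update] using hz w (hv' hw))
        (fun w hw => by simpa [Function.update] using hzz w hw)
      rw [supports_whether]
      rcases k with k | k
      · left
        rw [supports_rr]
        intro w hw
        simpa [Function.update] using k w hw
      · right
        intro w hw hs
        rw [supports_rr] at hs
        apply k w hw
        simpa [Function.update] using hs w rfl
    obtain ⟨c, hc1, hc2⟩ := hy2 u hu hα'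
    rw [supports_lt] at hc1
    refine ⟨c, fun w hw => by simpa [Function.update] using hc1 w hw, ?_⟩
    intro z w hwu hzx hzz hall
    have hpre2 : Supports M u
        (Function.update (Function.update (Function.update (Function.update g 3 x) 5 y) 1 c) 2 z)
        (lt R 2 3) := by
      rw [supports_lt]
      intro w' hw'
      have := hall w' hw'
      simpa [Function.update] using this
    obtain ⟨k1, k2⟩ := hc2 z u (Set.Subset.refl _) hpre2 {w} (Set.singleton_subset_iff.mpr hwu) (by
      rw [supports_rr]
      intro w' hw'
      rw [Set.mem_singleton_iff] at hw'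
      subst hw'
      simpa [Function.update] using hzz)
    constructor
    · intro hzc
      have := k1 {w} (Set.Subset.refl _) (by
        rw [supports_lt]
        intro w' hw'
        rw [Set.mem_singleton_iff] at hw'
        subst hw'
        simpa [Function.update] using hzc)
      rw [supports_rr] at this
      simpa [Function.update] using this w rfl
    · intro hRq
      have := k2 {w} (Set.Subset.refl _) (by
        rw [supports_rr]
        intro w' hw'
        rw [Set.mem_singleton_iff] at hw'
        subst hw'
        simpa [Function.update] using hRq)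
      rw [supports_lt] at this
      simpa [Function.update] using this w rfl
  · intro x hx u hu hfun
    have hpre : Supports M t (Function.update g 3 x) (nm R 3) := by
      rw [supports_nm]
      intro w hw
      have := hx w hw
      simpa [Function.update] using this
    have h := h9 x t (Set.Subset.refl _) hpre u hu (by
      intro z v hv hz v' hv' hzz
      rw [supports_lt] at hz
      rw [supports_rr] at hzz
      obtain ⟨y, hy1, hy2⟩ := hfun z v' (hv'.trans hv)
        (fun w hw => by simpa [Function.update] using hz w (hv' hw))
        (fun w hw => by simpa [Function.update] using hzz w hw)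
      refine ⟨y, ?_, ?_⟩
      · rw [supports_nm]
        intro w hw
        simpa [Function.update] using hy1 w hw
      · rw [supports_rr]
        intro w hw
        simpa [Function.update] using hy2 w hw)
    obtain ⟨Y, hY1, hY2⟩ := h
    rw [supports_nm] at hY1
    refine ⟨Y, fun w hw => by simpa [Function.update] using hY1 w hw, ?_⟩
    intro z y s w hw hzx hy hzz hqy hsy
    have h1 := hY2 z y {w} (Set.singleton_subset_iff.mpr hw) (by
      refine ⟨?_, ?_, ?_, ?_⟩
      · rw [supports_lt]
        intro w' hw'
        rw [Set.mem_singleton_iff] at hw'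
        subst hw'
        simpa [Function.update] using hzx
      · rw [supports_nm]
        intro w' hw'
        rw [Set.mem_singleton_iff] at hw'
        subst hw'
        simpa [Function.update] using hy
      · rw [supports_rr]
        intro w' hw'
        rw [Set.mem_singleton_iff] at hw'
        subst hw'
        simpa [Function.update] using hzz
      · rw [supports_rr]
        intro w' hw'
        rw [Set.mem_singleton_iff] at hw'
        subst hw'
        simpa [Function.update] using hqy) s {w} (Set.Subset.refl _) (by
      rw [supports_lt]
      intro w' hw'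
      rw [Set.mem_singleton_iff] at hw'
      subst hw'
      simpa [Function.update] using hsy)
    rw [supports_lt] at h1
    simpa [Function.update] using h1 w rfl
  · intro x y hx hy
    have hpre : Supports M t (Function.update (Function.update g 1 x) 2 y)
        (.and (nm R 1) (nm R 2)) := by
      refine ⟨?_, ?_⟩
      · rw [supports_nm]
        intro w hw
        have := hx w hw
        simpa [Function.update] using this
      · rw [supports_nm]
        intro w hw
        have := hy w hw
        simpa [Function.update] using this
    constructor
    · by_contra hcon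
      push Not at hcon
      apply hχ
      right
      refine ⟨x, y, hpre, ?_⟩
      rintro u hu ⟨hR, hR2⟩
      rw [supports_neg]
      intro w hw hQ
      rw [supports_rr] at hR hR2 hQ
      refine hcon w (hu hw) ?_ ?_ ?_
      · simpa [Function.update] using hR w hw
      · simpa [Function.update] using hR2 w hw
      · simpa [Function.update] using hQ w rfl
    · by_contra hcon
      push Not at hcon
      apply hχ
      left
      refine ⟨x, y, hpre, ?_⟩
      rintro u hu ⟨hR, hR2⟩
      rw [supports_rr]
      intro w hw
      rw [supports_rr] at hR hR2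
      have := hcon w (hu hw) (by simpa [Function.update] using hR w hw)
        (by simpa [Function.update] using hR2 w hw)
      simpa [Function.update] using this

end Pool.Agent.Y639.Inq
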